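import Pool.Agent.Q50.Z27.M0
import Pool.Agent.Q50.Z27.M1
import Pool.Agent.Q50.Z27.M2
import Pool.Agent.Q50.Z27.M3
import Pool.Agent.Q50.Z27.M4
import Pool.Agent.Q50.Z27.M5
import Pool.Agent.Q50.Z27.M6
import Pool.Agent.Q50.Z27.M7
import Pool.Agent.Q50.Z27.M8
import Pool.Agent.Q50.Z27.M9
import Pool.Agent.Q50.Z27.M10
import Pool.Agent.Q50.Z27.M11
import Pool.Agent.Q50.Z27.M12
import Pool.Agent.Q50.Z27.M13
import Pool.Agent.Q50.Z27.M14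
import Pool.Agent.Q50.Z27.M15
import Pool.Agent.Q50.Z27.M16
import Pool.Agent.Q50.Z27.M17
import Pool.Agent.Q50.Z27.M18
import Pool.Agent.Q50.Z27.M19
import Pool.Agent.Q50.Z27.M20
import Pool.Agent.Q50.Z27.M21
import Pool.Agent.Q50.Z27.M22
import Pool.Agent.Q50.Z27.M23
import Pool.Agent.Q50.Z27.M24
import Pool.Agent.Q50.Z27.M25
import Pool.Agent.Q50.Z27.M26
import Pool.Agent.Q50.Z27.M27
import Pool.Agent.Q50.Z27.M28
import Pool.Agent.Q50.Z27.M29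
import Pool.Agent.Q50.Z27.M30
import Pool.Agent.Q50.Z27.M31
import Pool.Agent.Q50.Z27.M32
import Pool.Agent.Q50.Z27.M33
import Pool.Agent.Q50.Z27.M34
import Pool.Agent.Q50.Z27.M35
import Pool.Agent.Q50.Z27.M36
import Pool.Agent.Q50.Z27.M37
import Pool.Agent.Q50.Z27.M38
import Pool.Agent.Q50.Z27.M39
import Pool.Agent.Q50.Z27.M40
import Pool.Agent.Q50.Z27.M41
import Pool.Agent.Q50.Z27.M42
import Pool.Agent.Q50.Z27.M43
import Pool.Agent.Q50.Z27.M44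
import Pool.Agent.Q50.Z27.M45
import Pool.Agent.Q50.Z27.M46
import Pool.Agent.Q50.Z27.M47
import Pool.Agent.Q50.Z27.M48
import Pool.Agent.Q50.Z27.M49
import Pool.Agent.Q50.Z27.M50
import Pool.Agent.Q50.Z27.M51
import Pool.Agent.Q50.Z27.M52
import Pool.Agent.Q50.Z27.M53
import Pool.Agent.Q50.Z27.M54
import Pool.Agent.Q50.Z27.M55
import Pool.Agent.Q50.Z27.M56
import Pool.Agent.Q50.Z27.M57
import Pool.Agent.Q50.Z27.M58
import Pool.Agent.Q50.Z27.M59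
import Pool.Agent.Q50.Z27.M60
import Pool.Agent.Q50.Z27.M61
import Pool.Agent.Q50.Z27.M62
import Pool.Agent.Q50.Z27.M63
import Pool.Agent.Q50.Z27.M64
import Pool.Agent.Q50.Z27.M65
import Pool.Agent.Q50.Z27.M66
import Pool.Agent.Q50.Z27.M67

namespace Pool.Agent.Q50.Z27

theorem dc2_3 : Dead SF2 Rc2_3 := dead_of_top (gc2_3_0 <| gc2_3_1 <| gc2_3_2 <| gc2_3_3 <| gc2_3_4 <| gc2_3_5 <| gc2_3_6 <| gc2_3_7)

theorem dc2_4 : Dead SF2 Rc2_4 := dead_of_top (gc2_4_7 <| gc2_4_8 <| gc2_4_9 <| gc2_4_10 <| gc2_4_11 <| gc2_4_12 <| gc2_4_13 <| gc2_4_14 <| gc2_4_15 <| gc2_4_16 <| gc2_4_17)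

theorem dc2_5 : Dead SF2 Rc2_5 := dead_of_top (gc2_5_17 <| gc2_5_18 <| gc2_5_19 <| gc2_5_20 <| gc2_5_21 <| gc2_5_22 <| gc2_5_23 <| gc2_5_24 <| gc2_5_25)

theorem dc2_6 : Dead SF2 Rc2_6 := dead_of_top (gc2_6_25 <| gc2_6_26 <| gc2_6_27 <| gc2_6_28 <| gc2_6_29 <| gc2_6_30 <| gc2_6_31 <| gc2_6_32)

theorem dc2_7 : Dead SF2 Rc2_7 := dead_of_top (gc2_7_32 <| gc2_7_33 <| gc2_7_34 <| gc2_7_35 <| gc2_7_36 <| gc2_7_37 <| gc2_7_38)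

theorem dc2_8 : Dead SF2 Rc2_8 := dead_of_top (gc2_8_38 <| gc2_8_39 <| gc2_8_40 <| gc2_8_41 <| gc2_8_42 <| gc2_8_43)

theorem dc2_9 : Dead SF2 Rc2_9 := dead_of_top (gc2_9_44 <| gc2_9_45 <| gc2_9_46 <| gc2_9_47)

theorem dc2_10 : Dead SF2 Rc2_10 := dead_of_top (gc2_10_48 <| gc2_10_49 <| gc2_10_50)

theorem dc2_11 : Dead SF2 Rc2_11 := dead_of_top (gc2_11_50 <| gc2_11_51)

theorem dc2_12 : Dead SF2 Rc2_12 := dead_of_top (gc2_12_52)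

theorem dc2_13 : Dead SF2 Rc2_13 := dead_of_top (gc2_13_52 <| gc2_13_53)

theorem dc3_0 : Dead SF3 Rc3_0 := dead_of_top (gc3_0_53 <| gc3_0_54 <| gc3_0_55 <| gc3_0_56 <| gc3_0_57 <| gc3_0_58 <| gc3_0_59 <| gc3_0_60 <| gc3_0_61 <| gc3_0_62 <| gc3_0_63)

theorem dc4_0 : Dead SF4 Rc4_0 := dead_of_top (gc4_0_64 <| gc4_0_65 <| gc4_0_66)

theorem dc5_0 : Dead SF5 Rc5_0 := dead_of_top (gc5_0_66 <| gc5_0_67)

end Pool.Agent.Q50.Z27
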