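import Pool.Agent.Q50.Z27.Sym
import Pool.Agent.Q50.Z27.All

namespace Pool.Agent.Q50.Z27

theorem hX_of {t X : ℕ} (hx : ∀ z < 27, ∀ w < 27, Nat.testBit X (81 * z + w) = true →
    (z = 2 ∧ absZ ((w : ℕ) - 2 : Z) ≠ t) ∨ (z = 26 ∧ absZ ((w : ℕ) : Z) < t)) {ρ : Z → Z}
    (h2 : absZ (ρ 2 - 2) = t) (h26 : t ≤ absZ (ρ 26)) :
    ∀ z < 27, ∀ w < 27, Nat.testBit X (81 * z + w) = true → ρ (z : ℕ) ≠ (w : ℕ) := by
  intro z hz w hw h hρ
  rcases hx z hz w hw h with ⟨rfl, h'⟩ | ⟨rfl, h'⟩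
  · rw [← hρ] at h'
    exact h' (by simpa using h2)
  · rw [← hρ] at h'
    have : ((26 : ℕ) : Z) = 26 := rfl
    rw [this] at h'
    omega

theorem case2 {ρ : Z → Z} (hG : Good ρ) (hM : MinD 2 ρ) (h0 : ρ 0 = 0)
    (h1 : ρ 1 = ((2 : ℕ) : Z)) (h : absZ (ρ 2 - 2) ≤ absZ (ρ 26)) : False := by
  have h2 : 2 ≤ absZ (ρ 2 - 2) := by
    have := hM.1 1 2 (Or.inl (by decide))
    rw [h1] at this
    exact this
  have h13 := absZ_le (ρ 2 - 2)
  generalize ht : absZ (ρ 2 - 2) = t at h h2 h13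
  interval_cases t
  · exact dc2_2 ρ (K_of sf_bit2 hG hM) (start_inv (K_of sf_bit2 hG hM) (by norm_num) h0 h1
      (hX_of x_bit2 ht h))
  · exact dc2_3 ρ (K_of sf_bit2 hG hM) (start_inv (K_of sf_bit2 hG hM) (by norm_num) h0 h1
      (hX_of x_bit3 ht h))
  · exact dc2_4 ρ (K_of sf_bit2 hG hM) (start_inv (K_of sf_bit2 hG hM) (by norm_num) h0 h1
      (hX_of x_bit4 ht h))
  · exact dc2_5 ρ (K_of sf_bit2 hG hM) (start_inv (K_of sf_bit2 hG hM) (by norm_num) h0 h1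
      (hX_of x_bit5 ht h))
  · exact dc2_6 ρ (K_of sf_bit2 hG hM) (start_inv (K_of sf_bit2 hG hM) (by norm_num) h0 h1
      (hX_of x_bit6 ht h))
  · exact dc2_7 ρ (K_of sf_bit2 hG hM) (start_inv (K_of sf_bit2 hG hM) (by norm_num) h0 h1
      (hX_of x_bit7 ht h))
  · exact dc2_8 ρ (K_of sf_bit2 hG hM) (start_inv (K_of sf_bit2 hG hM) (by norm_num) h0 h1
      (hX_of x_bit8 ht h))
  · exact dc2_9 ρ (K_of sf_bit2 hG hM) (start_inv (K_of sf_bit2 hG hM) (by norm_num) h0 h1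
      (hX_of x_bit9 ht h))
  · exact dc2_10 ρ (K_of sf_bit2 hG hM) (start_inv (K_of sf_bit2 hG hM) (by norm_num) h0 h1
      (hX_of x_bit10 ht h))
  · exact dc2_11 ρ (K_of sf_bit2 hG hM) (start_inv (K_of sf_bit2 hG hM) (by norm_num) h0 h1
      (hX_of x_bit11 ht h))
  · exact dc2_12 ρ (K_of sf_bit2 hG hM) (start_inv (K_of sf_bit2 hG hM) (by norm_num) h0 h1
      (hX_of x_bit12 ht h))
  · exact dc2_13 ρ (K_of sf_bit2 hG hM) (start_inv (K_of sf_bit2 hG hM) (by norm_num) h0 h1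
      (hX_of x_bit13 ht h))

theorem case3 {m : ℕ} {ρ : Z → Z} (hm : 3 ≤ m) (hm' : m ≤ 13) (hG : Good ρ) (hM : MinD m ρ)
    (h0 : ρ 0 = 0) (h1 : ρ 1 = m) : False := by
  interval_cases m
  · exact dc3_0 ρ (K_of sf_bit3 hG hM) (start_inv (K_of sf_bit3 hG hM) (by norm_num) h0 h1
      (fun z _ w _ h => by simp at h))
  · exact dc4_0 ρ (K_of sf_bit4 hG hM) (start_inv (K_of sf_bit4 hG hM) (by norm_num) h0 h1
      (fun z _ w _ h => by simp at h))
  · exact dc5_0 ρ (K_of sf_bit5 hG hM) (start_inv (K_of sf_bit5 hG hM) (by norm_num) h0 h1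
      (fun z _ w _ h => by simp at h))
  · exact dc6_0 ρ (K_of sf_bit6 hG hM) (start_inv (K_of sf_bit6 hG hM) (by norm_num) h0 h1
      (fun z _ w _ h => by simp at h))
  · exact dc7_0 ρ (K_of sf_bit7 hG hM) (start_inv (K_of sf_bit7 hG hM) (by norm_num) h0 h1
      (fun z _ w _ h => by simp at h))
  · exact dc8_0 ρ (K_of sf_bit8 hG hM) (start_inv (K_of sf_bit8 hG hM) (by norm_num) h0 h1
      (fun z _ w _ h => by simp at h))
  · exact dc9_0 ρ (K_of sf_bit9 hG hM) (start_inv (K_of sf_bit9 hG hM) (by norm_num) h0 h1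
      (fun z _ w _ h => by simp at h))
  · exact dc10_0 ρ (K_of sf_bit10 hG hM) (start_inv (K_of sf_bit10 hG hM) (by norm_num) h0 h1
      (fun z _ w _ h => by simp at h))
  · exact dc11_0 ρ (K_of sf_bit11 hG hM) (start_inv (K_of sf_bit11 hG hM) (by norm_num) h0 h1
      (fun z _ w _ h => by simp at h))
  · exact dc12_0 ρ (K_of sf_bit12 hG hM) (start_inv (K_of sf_bit12 hG hM) (by norm_num) h0 h1
      (fun z _ w _ h => by simp at h))
  · exact dc13_0 ρ (K_of sf_bit13 hG hM) (start_inv (K_of sf_bit13 hG hM) (by norm_num) h0 h1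
      (fun z _ w _ h => by simp at h))

/-- There is no good permutation of `ℤ/27`. -/
theorem no_good (π : Z → Z) : ¬ Good π := by
  intro hπ
  obtain ⟨m, ρ, h2, h13, hG, hM, h0, h1⟩ := normal (e := Equiv.ofBijective π hπ.1) hπ
  rcases Nat.lt_or_ge 2 m with hm | hm
  · exact case3 hm h13 hG hM h0 h1
  · obtain rfl : m = 2 := le_antisymm hm h2
    rcases le_total (absZ (ρ 2 - 2)) (absZ (ρ 26)) with h | h
    · exact case2 hG hM h0 h1 h
    · have k2 : (-1 * 26 + 1 : Z) = 2 := by decide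
      have k26 : (-1 * 2 + 1 : Z) = 26 := by decide
      refine case2 (good_tr hG (Or.inr rfl) (Or.inr rfl) 1 2)
        (minD_tr hM (Or.inr rfl) (Or.inr rfl) 1 2) ?_ ?_ ?_
      · show (-1 : Z) * (ρ (-1 * 0 + 1) - 2) = 0
        rw [mul_zero, zero_add, h1]
        decide
      · show (-1 : Z) * (ρ (-1 * 1 + 1) - 2) = ((2 : ℕ) : Z)
        rw [mul_one, neg_add_cancel, h0]
        decide
      · show absZ ((-1 : Z) * (ρ (-1 * 2 + 1) - 2) - 2) ≤ absZ ((-1 : Z) * (ρ (-1 * 26 + 1) - 2))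
        rw [k2, k26]
        have e1 : (-1 : Z) * (ρ 26 - 2) - 2 = -ρ 26 := by ring
        have e2 : (-1 : Z) * (ρ 2 - 2) = -(ρ 2 - 2) := by ring
        rw [e1, e2, absZ_neg, absZ_neg]
        exact h

end Pool.Agent.Q50.Z27
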