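import Mathlib
import Pool.Agent.Q50.Z27.Def

namespace Pool.Agent.Q50.Z27

/-- the cyclic group of order 27 -/
abbrev Z := ZMod 27

/-- one of `0, 1, -1` -/
def near (e : Z) : Prop := e = 0 ∨ e = 1 ∨ e = 26

instance (e : Z) : Decidable (near e) := by unfold near; infer_instance

/-- good permutations of `ℤ/27` -/
def Good (π : Z → Z) : Prop :=
  Function.Bijective π ∧
    ∀ a b c : Z, near (a + c - 2 * b) → near (π a + π c - 2 * π b) → a = b ∧ b = c

theorem near_neg {e : Z} (h : near e) : near (-e) := by
  rcases h with rfl | rfl | rfl <;> decide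

/-- `r` is `0, 1, -1` modulo 27 -/
def nrN (r : ℕ) : Bool := r % 27 == 0 || r % 27 == 1 || r % 27 == 26

theorem nr27 : ∀ k < 27, (near ((k : ℕ) : Z) ↔ nrN k = true) := by decide

theorem near_cast (r : ℕ) : near (r : Z) ↔ nrN r = true := by
  have h := nr27 (r % 27) (Nat.mod_lt _ (by norm_num))
  rw [ZMod.natCast_mod] at h
  rw [h]
  simp [nrN]

def absN (r : ℕ) : ℕ := min (r % 27) (27 - r % 27)

def selfN (m r c : ℕ) : Bool :=
  !(r % 27 == 0 && c % 27 == 0) && (r % 27 == 0 || c % 27 == 0 || (nrN r && nrN c) ||
    (nrN (2 * r) && nrN (2 * c)) || (nrN r && decide (absN c < m)) || (nrN c && decide (absN r < m)))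

theorem ptb_bit : ∀ r < 81, ∀ c < 81, PTB.testBit (81 * r + c) = true →
    nrN r = true ∧ nrN c = true := by decide +kernel

theorem pth_bit : ∀ r < 81, ∀ c < 81, PTH.testBit (81 * r + c) = true →
    nrN (2 * r) = true ∧ nrN (2 * c) = true := by decide +kernel

theorem nb_bit : ∀ r < 81, ∀ c < 81, NB.testBit (81 * r + c) = true →
    ¬ (r % 27 = 0 ∧ c % 27 = 0) := by decide +kernel

/-- what is known about `π` and the template `sf` -/
structure K (sf : ℕ) (π : Z → Z) : Prop where
  good : Good π
  self : ∀ (x z : Z) (r c : ℕ), r < 81 → c < 81 → (r : Z) = z - x → (c : Z) = π z - π x →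
    sf.testBit (81 * r + c) = false

/-- the meaning of a state -/
structure Inv (π : Z → Z) (s : St) : Prop where
  F : ∀ z w : ℕ, z < 27 → w < 27 → s.F.testBit (81 * z + w) = true → π z ≠ w
  B : ∀ r c : ℕ, r < 54 → c < 54 → s.B.testBit (81 * r + c) = true →
    ∃ y : Z, near ((r : Z) + y) ∧ near ((c : Z) + π y)
  D : ∀ r c : ℕ, r < 54 → c < 54 → s.D.testBit (81 * r + c) = true →
    ∃ y : Z, near ((r : Z) - 2 * y) ∧ near ((c : Z) - 2 * π y)
  H : ∀ r c : ℕ, r < 54 → c < 54 → s.H.testBit (81 * r + c) = true →
    ∃ y : Z, near (2 * (r : Z) - y) ∧ near (2 * (c : Z) - π y)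

theorem asg_eq (sf : ℕ) (s : St) (x v : ℕ) : asg sf s x v =
    ⟨s.F ||| (((s.B >>> (2214 - (81 * (2 * x % 27) + 2 * v % 27))) ||| (s.D >>> (81 * x + v)) |||
        ((s.H >>> (2214 - (81 * (14 * x % 27) + 14 * v % 27))) ||| (sf >>> (2214 - (81 * x + v))))) &&&
        (NB >>> (2214 - (81 * x + v)))),
      s.B ||| (PTB >>> (81 * x + v)),
      s.D ||| (PTB >>> (2214 - (81 * (2 * x % 27) + 2 * v % 27))),
      s.H ||| (PTH >>> (2214 - (81 * (14 * x % 27) + 14 * v % 27)))⟩ := rfl

theorem idx {x v z w : ℕ} (hx : x < 27) (hv : v < 27) :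
    2214 - (81 * x + v) + (81 * z + w) = 81 * (27 - x + z) + (27 - v + w) := by omega

theorem c27 : ((27 : ℕ) : Z) = 0 := by decide

theorem cast_sub {k z : ℕ} (hk : k < 27) : ((27 - k + z : ℕ) : Z) = z - k := by
  rw [Nat.cast_add, Nat.cast_sub hk.le, c27]
  ring

theorem cast_mod (k : ℕ) : ((k % 27 : ℕ) : Z) = k := ZMod.natCast_mod k 27

theorem zero_of {r : ℕ} (h : (r : Z) = 0) : r % 27 = 0 := by
  have := (ZMod.natCast_eq_zero_iff r 27).1 h
  omega

theorem inv_asg {sf : ℕ} {π : Z → Z} (hK : K sf π) {s : St} (hs : Inv π s) {x v : ℕ}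
    (hx : x < 27) (hv : v < 27) (h : π (x : Z) = v) : Inv π (asg sf s x v) := by
  have hx2 : 2 * x % 27 < 27 := Nat.mod_lt _ (by norm_num)
  have hv2 : 2 * v % 27 < 27 := Nat.mod_lt _ (by norm_num)
  have hxh : 14 * x % 27 < 27 := Nat.mod_lt _ (by norm_num)
  have hvh : 14 * v % 27 < 27 := Nat.mod_lt _ (by norm_num)
  have h28 : (28 : Z) = 1 := by decide
  rw [asg_eq]
  constructor
  · intro z w hz hw hb hzw
    simp only [Nat.testBit_or, Nat.testBit_and, Nat.testBit_shiftRight, Bool.or_eq_true,
      Bool.and_eq_true] at hb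
    rcases hb with hb | ⟨hb, hnb⟩
    · exact hs.F z w hz hw hb hzw
    · have hne : ¬ ((z : Z) = x) := by
        intro hzx
        have hw' : (w : Z) = v := by rw [← hzw, hzx, h]
        rw [idx hx hv] at hnb
        refine nb_bit _ (by omega) _ (by omega) hnb ⟨zero_of ?_, zero_of ?_⟩
        · rw [cast_sub hx, hzx, sub_self]
        · rw [cast_sub hv, hw', sub_self]
      rcases hb with (hb | hb) | (hb | hb)
      · rw [idx hx2 hv2] at hb
        obtain ⟨y, h1, h2⟩ := hs.B _ _ (by omega) (by omega) hb
        rw [cast_sub hx2, cast_mod] at h1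
        rw [cast_sub hv2, cast_mod] at h2
        have := hK.good.2 z x y (by convert h1 using 1; push_cast; ring)
          (by rw [hzw, h]; convert h2 using 1; push_cast; ring)
        exact hne this.1
      · have e : 81 * x + v + (81 * z + w) = 81 * (x + z) + (v + w) := by ring
        rw [e] at hb
        obtain ⟨y, h1, h2⟩ := hs.D _ _ (by omega) (by omega) hb
        have := hK.good.2 z y x (by convert h1 using 1; push_cast; ring)
          (by rw [hzw, h]; convert h2 using 1; push_cast; ring)
        exact hne (this.1.trans this.2)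
      · rw [idx hxh hvh] at hb
        obtain ⟨y, h1, h2⟩ := hs.H _ _ (by omega) (by omega) hb
        rw [cast_sub hxh, cast_mod] at h1
        rw [cast_sub hvh, cast_mod] at h2
        have := hK.good.2 x z y
          (by
            have := near_neg h1
            convert this using 1; push_cast; linear_combination (-(x : Z)) * h28)
          (by
            rw [hzw, h]
            have := near_neg h2
            convert this using 1; push_cast; linear_combination (-(v : Z)) * h28)
        exact hne this.1.symm
      · rw [idx hx hv] at hb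
        have := hK.self x z (27 - x + z) (27 - v + w) (by omega) (by omega) (cast_sub hx) (by rw [cast_sub hv, hzw, h])
        rw [this] at hb
        exact Bool.noConfusion hb
  · intro r c hr hc hb
    simp only [Nat.testBit_or, Nat.testBit_shiftRight, Bool.or_eq_true] at hb
    rcases hb with hb | hb
    · exact hs.B r c hr hc hb
    · have e : 81 * x + v + (81 * r + c) = 81 * (x + r) + (v + c) := by ring
      rw [e] at hb
      obtain ⟨h1, h2⟩ := ptb_bit _ (by omega) _ (by omega) hb
      rw [← near_cast] at h1 h2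
      refine ⟨x, ?_, ?_⟩
      · convert h1 using 1; push_cast; ring
      · rw [h]; convert h2 using 1; push_cast; ring
  · intro r c hr hc hb
    simp only [Nat.testBit_or, Nat.testBit_shiftRight, Bool.or_eq_true] at hb
    rcases hb with hb | hb
    · exact hs.D r c hr hc hb
    · rw [idx hx2 hv2] at hb
      obtain ⟨h1, h2⟩ := ptb_bit _ (by omega) _ (by omega) hb
      rw [← near_cast, cast_sub hx2, cast_mod] at h1
      rw [← near_cast, cast_sub hv2, cast_mod] at h2
      refine ⟨x, ?_, ?_⟩
      · convert h1 using 1; push_cast; ring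
      · rw [h]; convert h2 using 1; push_cast; ring
  · intro r c hr hc hb
    simp only [Nat.testBit_or, Nat.testBit_shiftRight, Bool.or_eq_true] at hb
    rcases hb with hb | hb
    · exact hs.H r c hr hc hb
    · rw [idx hxh hvh] at hb
      obtain ⟨h1, h2⟩ := pth_bit _ (by omega) _ (by omega) hb
      rw [← near_cast, Nat.cast_mul, cast_sub hxh, cast_mod] at h1
      rw [← near_cast, Nat.cast_mul, cast_sub hvh, cast_mod] at h2
      refine ⟨x, ?_, ?_⟩
      · convert h1 using 1; push_cast; linear_combination (x : Z) * h28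
      · rw [h]; convert h2 using 1; push_cast; linear_combination (v : Z) * h28

/-- no permutation is compatible with the state -/
def Dead (sf : ℕ) (s : St) : Prop := ∀ π : Z → Z, K sf π → ¬ Inv π s

theorem rowKids_zero (sf : ℕ) (s : St) (x : ℕ) (rest : List St) (a : ℕ) :
    rowKids sf s x 0 rest a = s :: rest := rfl

theorem rowKids_succ (sf : ℕ) (s : St) (x f : ℕ) (rest : List St) (a : ℕ) :
    rowKids sf s x (f + 1) rest a =
      bif Nat.beq a 0 then rest
      else rowKids sf s x f (asg sf s x (low a) :: rest) (a ^^^ 2 ^ (low a)) := by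
  have : Nat.beq a 0 = true ∨ Nat.beq a 0 = false := by cases Nat.beq a 0 <;> simp
  rcases this with h | h
  · rw [h]
    show (Bool.rec (motive := fun _ => List St) _ rest (Nat.beq a 0) : List St) = _
    rw [h]; rfl
  · rw [h]
    show (Bool.rec (motive := fun _ => List St)
      (rowKids sf s x f (asg sf s x (low a) :: rest) (a ^^^ 2 ^ (low a))) rest (Nat.beq a 0) :
        List St) = _
    rw [h]; rfl

theorem row_sound (sf : ℕ) (s : St) (x : ℕ) (hx : x < 27) : ∀ (f : ℕ) (rest : List St) (a : ℕ),
    (∀ s' ∈ rowKids sf s x f rest a, Dead sf s') → (∀ s' ∈ rest, Dead sf s') ∧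
      ∀ π : Z → Z, K sf π → Inv π s → ∀ w < 27, a.testBit w = true → π (x : Z) ≠ (w : ℕ) := by
  intro f
  induction f with
  | zero =>
    intro rest a h
    rw [rowKids_zero] at h
    exact ⟨fun s' hs' => h s' (List.mem_cons_of_mem _ hs'),
      fun π hK hI => absurd hI (h s List.mem_cons_self π hK)⟩
  | succ f ih =>
    intro rest a h
    rw [rowKids_succ] at h
    by_cases ha : a = 0
    · subst ha
      refine ⟨h, fun π _ _ w _ hw => ?_⟩
      simp at hw
    · have hb : Nat.beq a 0 = false := by
        rcases hh : Nat.beq a 0 with _ | _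
        · rfl
        · exact absurd (Nat.eq_of_beq_eq_true hh) ha
      rw [hb] at h
      obtain ⟨h1, h2⟩ := ih _ _ h
      refine ⟨fun s' hs' => h1 s' (List.mem_cons_of_mem _ hs'), fun π hK hI w hw hbit hπ => ?_⟩
      by_cases hwv : w = low a
      · subst hwv
        exact h1 _ List.mem_cons_self π hK (inv_asg hK hI hx hw hπ)
      · refine h2 π hK hI w hw ?_ hπ
        rw [Nat.testBit_xor, hbit, Nat.testBit_two_pow]
        simp [Ne.symm hwv]

theorem colKids_zero (sf : ℕ) (s : St) (x : ℕ) (rest : List St) (a : ℕ) :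
    colKids sf s x 0 rest a = s :: rest := rfl

/-- the position used for a column -/
def lowc (a : ℕ) : ℕ := low (a % 1208925819614629174706175)

theorem colKids_succ (sf : ℕ) (s : St) (v f : ℕ) (rest : List St) (a : ℕ) :
    colKids sf s v (f + 1) rest a =
      bif Nat.beq a 0 then rest
      else colKids sf s v f (asg sf s (lowc a) v :: rest) (a ^^^ 2 ^ (81 * lowc a)) := by
  have : Nat.beq a 0 = true ∨ Nat.beq a 0 = false := by cases Nat.beq a 0 <;> simp
  rcases this with h | h
  · rw [h]
    show (Bool.rec (motive := fun _ => List St) _ rest (Nat.beq a 0) : List St) = _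
    rw [h]; rfl
  · rw [h]
    show (Bool.rec (motive := fun _ => List St)
      (colKids sf s v f (asg sf s (lowc a) v :: rest) (a ^^^ 2 ^ (81 * lowc a))) rest
        (Nat.beq a 0) : List St) = _
    rw [h]; rfl

theorem col_sound (sf : ℕ) (s : St) (v : ℕ) (hv : v < 27) : ∀ (f : ℕ) (rest : List St) (a : ℕ),
    (∀ s' ∈ colKids sf s v f rest a, Dead sf s') → (∀ s' ∈ rest, Dead sf s') ∧
      ∀ π : Z → Z, K sf π → Inv π s → ∀ z < 27, a.testBit (81 * z) = true →
        π (z : ℕ) ≠ (v : Z) := by
  intro f
  induction f with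
  | zero =>
    intro rest a h
    rw [colKids_zero] at h
    exact ⟨fun s' hs' => h s' (List.mem_cons_of_mem _ hs'),
      fun π hK hI => absurd hI (h s List.mem_cons_self π hK)⟩
  | succ f ih =>
    intro rest a h
    rw [colKids_succ] at h
    by_cases ha : a = 0
    · subst ha
      refine ⟨h, fun π _ _ w _ hw => ?_⟩
      simp at hw
    · have hb : Nat.beq a 0 = false := by
        rcases hh : Nat.beq a 0 with _ | _
        · rfl
        · exact absurd (Nat.eq_of_beq_eq_true hh) ha
      rw [hb] at h
      obtain ⟨h1, h2⟩ := ih _ _ h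
      refine ⟨fun s' hs' => h1 s' (List.mem_cons_of_mem _ hs'), fun π hK hI z hz hbit hπ => ?_⟩
      by_cases hzv : z = lowc a
      · subst hzv
        exact h1 _ List.mem_cons_self π hK (inv_asg hK hI hz hv hπ)
      · refine h2 π hK hI z hz ?_ hπ
        rw [Nat.testBit_xor, hbit, Nat.testBit_two_pow]
        have : ¬ (81 * lowc a = 81 * z) := by omega
        simp [this]

theorem col_bit : ∀ z < 27, COL.testBit (81 * z) = true := by decide +kernel

theorem kids_eq (sf : ℕ) (s : St) (rest : List St) (c : ℕ) : kids sf s rest c =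
    bif Nat.ble c 26 then
      rowKids sf s c 28 rest (134217727 ^^^ ((s.F >>> (81 * c)) &&& 134217727))
    else colKids sf s (c % 27) 28 rest (COL ^^^ ((s.F >>> (c % 27)) &&& COL)) := by
  have : Nat.ble c 26 = true ∨ Nat.ble c 26 = false := by cases Nat.ble c 26 <;> simp
  rcases this with h | h
  · rw [h]
    show (Bool.rec (motive := fun _ => List St) _
      (rowKids sf s c 28 rest (134217727 ^^^ ((s.F >>> (81 * c)) &&& 134217727)))
      (Nat.ble c 26) : List St) = _
    rw [h]; rfl
  · rw [h]
    show (Bool.rec (motive := fun _ => List St)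
      (colKids sf s (c % 27) 28 rest (COL ^^^ ((s.F >>> (c % 27)) &&& COL))) _
      (Nat.ble c 26) : List St) = _
    rw [h]; rfl

theorem full_bit : ∀ w < 27, (134217727 : ℕ).testBit w = true := by decide

theorem val_cast (y : Z) : ((y.val : ℕ) : Z) = y := ZMod.natCast_zmod_val y

theorem kids_sound (sf : ℕ) (s : St) (rest : List St) (c : ℕ)
    (h : ∀ s' ∈ kids sf s rest c, Dead sf s') : ∀ s' ∈ s :: rest, Dead sf s' := by
  rw [kids_eq] at h
  by_cases hc : c ≤ 26
  · have hb : Nat.ble c 26 = true := by rw [Nat.ble_eq]; exact hc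
    rw [hb, cond_true] at h
    obtain ⟨h1, h2⟩ := row_sound sf s c (by omega) _ _ _ h
    intro s' hs'
    rcases List.mem_cons.1 hs' with rfl | hs'
    · intro π hK hI
      have hw : (π (c : Z)).val < 27 := ZMod.val_lt _
      refine h2 π hK hI _ hw ?_ (val_cast _).symm
      rw [Nat.testBit_xor, Nat.testBit_and, Nat.testBit_shiftRight, full_bit _ hw]
      rcases hF : s'.F.testBit (81 * c + (π (c : Z)).val) with _ | _
      · simp
      · exact absurd (val_cast _).symm (hI.F c _ (by omega) hw hF)
    · exact h1 s' hs'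
  · have hb : Nat.ble c 26 = false := by
      rcases hh : Nat.ble c 26 with _ | _
      · rfl
      · exact absurd (Nat.le_of_ble_eq_true hh) hc
    rw [hb, cond_false] at h
    have hv : c % 27 < 27 := Nat.mod_lt _ (by norm_num)
    obtain ⟨h1, h2⟩ := col_sound sf s (c % 27) hv _ _ _ h
    intro s' hs'
    rcases List.mem_cons.1 hs' with rfl | hs'
    · intro π hK hI
      obtain ⟨y, hy⟩ := hK.good.1.2 ((c % 27 : ℕ) : Z)
      have hw : y.val < 27 := ZMod.val_lt _
      have hy' : π (y.val : ℕ) = ((c % 27 : ℕ) : Z) := by rw [val_cast]; exact hy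
      refine h2 π hK hI _ hw ?_ hy'
      rw [Nat.testBit_xor, Nat.testBit_and, Nat.testBit_shiftRight, col_bit _ hw]
      rcases hF : s'.F.testBit (c % 27 + 81 * y.val) with _ | _
      · simp
      · rw [add_comm] at hF
        exact absurd hy' (hI.F _ _ hw hv hF)
    · exact h1 s' hs'

theorem inner_sound (sf : ℕ) (cont : List St → Bool)
    (hc : ∀ st, cont st = true → ∀ s ∈ st, Dead sf s) :
    ∀ (k code : ℕ) (st : List St), inner sf k code st cont = true → ∀ s ∈ st, Dead sf s := by
  intro k
  induction k with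
  | zero => intro code st h; exact hc st h
  | succ k ih =>
    intro code st h
    cases st with
    | nil => simp
    | cons s rest =>
      have h' : inner sf k (code / 64) (kids sf s rest (code % 64)) cont = true := h
      exact kids_sound sf s rest _ (ih _ _ h')

theorem go_sound (sf : ℕ) : ∀ (l : List ℕ) (st : List St), go sf l st = true →
    ∀ s ∈ st, Dead sf s := by
  intro l
  induction l with
  | nil =>
    intro st h
    have h' : st.isEmpty = true := h
    cases st with
    | nil => simp
    | cons s rest => simp at h'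
  | cons code l ih =>
    intro st h
    exact inner_sound sf _ ih 100 code st h

theorem top_sound (sf : ℕ) : ∀ (l : List ℕ) (st out : List St),
    (∀ s ∈ top sf l st out, Dead sf s) → (∀ s ∈ st, Dead sf s) ∧ ∀ s ∈ out, Dead sf s := by
  intro l
  induction l with
  | nil =>
    intro st out h
    have h' : ∀ s ∈ st ++ out, Dead sf s := h
    exact ⟨fun s hs => h' s (List.mem_append_left _ hs), fun s hs => h' s (List.mem_append_right _ hs)⟩
  | cons c l ih =>
    intro st out h
    cases st with
    | nil => exact ⟨by simp, h⟩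
    | cons s rest =>
      rcases hb : Nat.beq c 63 with _ | _
      · have h' : ∀ s' ∈ top sf l (kids sf s rest c) out, Dead sf s' := by
          have e : top sf (c :: l) (s :: rest) out = Bool.rec (motive := fun _ => List St)
            (top sf l (kids sf s rest c) out) (top sf l rest (s :: out)) (Nat.beq c 63) := rfl
          rw [e, hb] at h
          exact h
        obtain ⟨h1, h2⟩ := ih _ _ h'
        exact ⟨kids_sound sf s rest c h1, h2⟩
      · have h' : ∀ s' ∈ top sf l rest (s :: out), Dead sf s' := by
          have e : top sf (c :: l) (s :: rest) out = Bool.rec (motive := fun _ => List St)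
            (top sf l (kids sf s rest c) out) (top sf l rest (s :: out)) (Nat.beq c 63) := rfl
          rw [e, hb] at h
          exact h
        obtain ⟨h1, h2⟩ := ih _ _ h'
        refine ⟨fun s' hs' => ?_, fun s' hs' => h2 s' (List.mem_cons_of_mem _ hs')⟩
        rcases List.mem_cons.1 hs' with rfl | hs'
        · exact h2 _ List.mem_cons_self
        · exact h1 s' hs'

theorem split {sf : ℕ} {L : List St} (a n b : ℕ) (hb : a + n = b)
    (h1 : ∀ s ∈ (L.drop a).take n, Dead sf s) (h2 : ∀ s ∈ L.drop b, Dead sf s) :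
    ∀ s ∈ L.drop a, Dead sf s := by
  intro s hs
  rw [← List.take_append_drop n (L.drop a), List.drop_drop, hb] at hs
  rcases List.mem_append.1 hs with h | h
  · exact h1 s h
  · exact h2 s h

theorem dead_of_top {sf : ℕ} {T : List ℕ} {s : St}
    (h : ∀ s' ∈ (top sf T [s] []).drop 0, Dead sf s') : Dead sf s :=
  (top_sound sf T [s] [] h).1 s (List.mem_singleton.2 rfl)

theorem dead_of_go {sf : ℕ} {l : List ℕ} {s : St} (h : go sf l [s] = true) : Dead sf s :=
  go_sound sf l [s] h s (List.mem_singleton.2 rfl)

end Pool.Agent.Q50.Z27
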