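import Pool.Agent.Q50.Z27.Def

namespace Pool.Agent.Q50.Z27

/-- the root of the case `c2_2` -/
def Rc2_2 : St := start SF2 (nat_lit 0x1000000c00000000000000000000000000000000000000000000000000000000000000000000000000000000000000000000000000000000000000000000000000000000000000000000000000000000000000000000000000000000000000000000000000000000000000000000000000000000000000000000000000000000000000000000000000000000000000000000000000000000000000000000000000000000000000000000000000000000000000000000000000000000000000000000000000000000000000000000000000000000000000000000000000000000000000000000000000000000000000000000001fffffb80000000000000000000000000000000000000000) (nat_lit 2)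

/-- the root of the case `c2_3` -/
def Rc2_3 : St := start SF2 (nat_lit 0x1800001c00000000000000000000000000000000000000000000000000000000000000000000000000000000000000000000000000000000000000000000000000000000000000000000000000000000000000000000000000000000000000000000000000000000000000000000000000000000000000000000000000000000000000000000000000000000000000000000000000000000000000000000000000000000000000000000000000000000000000000000000000000000000000000000000000000000000000000000000000000000000000000000000000000000000000000000000000000000000000000000000fffff7c0000000000000000000000000000000000000000) (nat_lit 2)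

/-- upper part of the search tree of this case -/
def Tc2_3 : List ℕ :=
  [nat_lit 2, nat_lit 3, nat_lit 4, nat_lit 63, nat_lit 63, nat_lit 63, nat_lit 63, nat_lit 63, nat_lit 63, nat_lit 63, nat_lit 63, nat_lit 63, nat_lit 63, nat_lit 63, nat_lit 63, nat_lit 4, nat_lit 63, nat_lit 63, nat_lit 63, nat_lit 63, nat_lit 63, nat_lit 63, nat_lit 63, nat_lit 63, nat_lit 63, nat_lit 63, nat_lit 63, nat_lit 4, nat_lit 63, nat_lit 63, nat_lit 63, nat_lit 63, nat_lit 63, nat_lit 63, nat_lit 63, nat_lit 63, nat_lit 63, nat_lit 63, nat_lit 63, nat_lit 4, nat_lit 63, nat_lit 63, nat_lit 63, nat_lit 63, nat_lit 63, nat_lit 63, nat_lit 63, nat_lit 63, nat_lit 63, nat_lit 63, nat_lit 63, nat_lit 4, nat_lit 63, nat_lit 63, nat_lit 63, nat_lit 63, nat_lit 63, nat_lit 63, nat_lit 63, nat_lit 63, nat_lit 63, nat_lit 63, nat_lit 63, nat_lit 4, nat_lit 63, nat_lit 63, nat_lit 63, nat_lit 63, nat_lit 63, nat_lit 63, nat_lit 63, nat_lit 63, nat_lit 63, nat_lit 63, nat_lit 63, nat_lit 63, nat_lit 4, nat_lit 63, nat_lit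 63, nat_lit 63, nat_lit 63, nat_lit 63, nat_lit 63, nat_lit 63, nat_lit 63, nat_lit 63, nat_lit 63, nat_lit 63, nat_lit 63, nat_lit 63, nat_lit 28, nat_lit 63, nat_lit 63, nat_lit 63, nat_lit 63, nat_lit 63, nat_lit 63, nat_lit 63, nat_lit 63, nat_lit 63, nat_lit 63, nat_lit 63, nat_lit 63, nat_lit 15, nat_lit 63, nat_lit 63, nat_lit 63, nat_lit 63, nat_lit 63, nat_lit 63, nat_lit 63, nat_lit 63, nat_lit 63, nat_lit 63, nat_lit 63, nat_lit 63, nat_lit 63, nat_lit 15, nat_lit 63, nat_lit 63, nat_lit 63, nat_lit 63, nat_lit 63, nat_lit 63, nat_lit 63, nat_lit 63, nat_lit 63, nat_lit 63, nat_lit 63, nat_lit 63, nat_lit 63, nat_lit 15, nat_lit 63, nat_lit 63, nat_lit 63, nat_lit 63, nat_lit 63, nat_lit 63, nat_lit 63, nat_lit 63, nat_lit 63, nat_lit 63, nat_lit 63, nat_lit 63, nat_lit 15, nat_lit 63, nat_lit 63, nat_lit 63, nat_lit 63, nat_lit 63, nat_lit 63, nat_lit 63, nat_lit 63, nat_lit 63, nat_lit 63, nat_lit 63, nat_lit 63, nat_lit 4, nat_lit 63, nat_lit 63, nat_lit 63, nat_lit 63, nat_lit 63,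 nat_lit 63, nat_lit 63, nat_lit 63, nat_lit 63, nat_lit 63, nat_lit 63, nat_lit 4, nat_lit 63, nat_lit 63, nat_lit 63, nat_lit 63, nat_lit 63, nat_lit 63, nat_lit 63, nat_lit 63, nat_lit 63, nat_lit 63, nat_lit 63, nat_lit 4, nat_lit 63, nat_lit 63, nat_lit 63, nat_lit 63, nat_lit 63, nat_lit 63, nat_lit 63, nat_lit 63, nat_lit 63, nat_lit 63, nat_lit 63, nat_lit 4, nat_lit 63, nat_lit 63, nat_lit 63, nat_lit 63, nat_lit 63, nat_lit 63, nat_lit 63, nat_lit 63, nat_lit 63, nat_lit 63, nat_lit 63, nat_lit 4, nat_lit 63, nat_lit 63, nat_lit 63, nat_lit 63, nat_lit 63, nat_lit 63, nat_lit 63, nat_lit 63, nat_lit 63, nat_lit 63, nat_lit 63, nat_lit 63, nat_lit 63, nat_lit 63, nat_lit 63, nat_lit 63, nat_lit 63]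

/-- the states at which the upper part stops -/
def Lc2_3 : List St := top SF2 Tc2_3 [Rc2_3] []

/-- the root of the case `c2_4` -/
def Rc2_4 : St := start SF2 (nat_lit 0x1c00003c000000000000000000000000000000000000000000000000000000000000000000000000000000000000000000000000000000000000000000000000000000000000000000000000000000000000000000000000000000000000000000000000000000000000000000000000000000000000000000000000000000000000000000000000000000000000000000000000000000000000000000000000000000000000000000000000000000000000000000000000000000000000000000000000000000000000000000000000000000000000000000000000000000000000000000000000000000000000000000000017fffefc0000000000000000000000000000000000000000) (nat_lit 2)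

/-- upper part of the search tree of this case -/
def Tc2_4 : List ℕ :=
  [nat_lit 2, nat_lit 3, nat_lit 4, nat_lit 63, nat_lit 63, nat_lit 63, nat_lit 63, nat_lit 63, nat_lit 63, nat_lit 63, nat_lit 63, nat_lit 63, nat_lit 63, nat_lit 63, nat_lit 4, nat_lit 63, nat_lit 63, nat_lit 63, nat_lit 63, nat_lit 63, nat_lit 63, nat_lit 63, nat_lit 63, nat_lit 63, nat_lit 63, nat_lit 4, nat_lit 63, nat_lit 63, nat_lit 63, nat_lit 63, nat_lit 63, nat_lit 63, nat_lit 63, nat_lit 63, nat_lit 63, nat_lit 63, nat_lit 4, nat_lit 63, nat_lit 63, nat_lit 63, nat_lit 63, nat_lit 63, nat_lit 63, nat_lit 63, nat_lit 63, nat_lit 63, nat_lit 63, nat_lit 63, nat_lit 4, nat_lit 63, nat_lit 63, nat_lit 63, nat_lit 63, nat_lit 63, nat_lit 63, nat_lit 63, nat_lit 63, nat_lit 63, nat_lit 63, nat_lit 63, nat_lit 63, nat_lit 15, nat_lit 63, nat_lit 63, nat_lit 63, nat_lit 63, nat_lit 63, nat_lit 63, nat_lit 63, nat_lit 63, nat_lit 63, nat_lit 63, nat_lit 63, nat_lit 63, nat_lit 15, nat_lit 63, nat_lit 63, nat_lit 63, nat_lit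 63, nat_lit 63, nat_lit 63, nat_lit 63, nat_lit 63, nat_lit 63, nat_lit 63, nat_lit 63, nat_lit 63, nat_lit 15, nat_lit 63, nat_lit 63, nat_lit 63, nat_lit 63, nat_lit 63, nat_lit 63, nat_lit 63, nat_lit 63, nat_lit 63, nat_lit 63, nat_lit 63, nat_lit 63, nat_lit 15, nat_lit 63, nat_lit 63, nat_lit 63, nat_lit 63, nat_lit 63, nat_lit 63, nat_lit 63, nat_lit 63, nat_lit 63, nat_lit 63, nat_lit 63, nat_lit 63, nat_lit 15, nat_lit 63, nat_lit 63, nat_lit 63, nat_lit 63, nat_lit 63, nat_lit 63, nat_lit 63, nat_lit 63, nat_lit 63, nat_lit 63, nat_lit 63, nat_lit 15, nat_lit 63, nat_lit 63, nat_lit 63, nat_lit 63, nat_lit 63, nat_lit 63, nat_lit 63, nat_lit 63, nat_lit 63, nat_lit 63, nat_lit 63, nat_lit 4, nat_lit 63, nat_lit 63, nat_lit 63, nat_lit 63, nat_lit 63, nat_lit 63, nat_lit 63, nat_lit 63, nat_lit 63, nat_lit 63, nat_lit 4, nat_lit 63, nat_lit 63, nat_lit 63, nat_lit 63, nat_lit 63, nat_lit 63, nat_lit 63, nat_lit 63, nat_lit 63, nat_lit 63, nat_lit 4, nat_lit 63, nat_lit 63, nat_lit 63,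 nat_lit 63, nat_lit 63, nat_lit 63, nat_lit 63, nat_lit 63, nat_lit 63, nat_lit 63, nat_lit 53, nat_lit 63, nat_lit 63, nat_lit 63, nat_lit 63, nat_lit 63, nat_lit 63, nat_lit 63, nat_lit 63, nat_lit 63, nat_lit 63, nat_lit 63, nat_lit 63, nat_lit 63, nat_lit 3, nat_lit 4, nat_lit 63, nat_lit 63, nat_lit 63, nat_lit 63, nat_lit 63, nat_lit 63, nat_lit 63, nat_lit 63, nat_lit 63, nat_lit 63, nat_lit 63, nat_lit 63, nat_lit 4, nat_lit 63, nat_lit 63, nat_lit 63, nat_lit 63, nat_lit 63, nat_lit 63, nat_lit 63, nat_lit 63, nat_lit 63, nat_lit 63, nat_lit 15, nat_lit 63, nat_lit 63, nat_lit 63, nat_lit 63, nat_lit 63, nat_lit 63, nat_lit 63, nat_lit 63, nat_lit 63, nat_lit 63, nat_lit 15, nat_lit 63, nat_lit 63, nat_lit 63, nat_lit 63, nat_lit 63, nat_lit 63, nat_lit 63, nat_lit 63, nat_lit 63, nat_lit 63, nat_lit 15, nat_lit 63, nat_lit 63, nat_lit 63, nat_lit 63, nat_lit 63, nat_lit 63, nat_lit 63, nat_lit 63, nat_lit 63, nat_lit 63, nat_lit 15, nat_lit 63, nat_lit 63, nat_lit 63, nat_lit 63, nat_lit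 63, nat_lit 63, nat_lit 63, nat_lit 63, nat_lit 63, nat_lit 63, nat_lit 63, nat_lit 25, nat_lit 63, nat_lit 63, nat_lit 63, nat_lit 63, nat_lit 63, nat_lit 63, nat_lit 63, nat_lit 63, nat_lit 63, nat_lit 63, nat_lit 63, nat_lit 25, nat_lit 63, nat_lit 63, nat_lit 63, nat_lit 63, nat_lit 63, nat_lit 63, nat_lit 63, nat_lit 63, nat_lit 63, nat_lit 63, nat_lit 63, nat_lit 25, nat_lit 63, nat_lit 63, nat_lit 63, nat_lit 63, nat_lit 63, nat_lit 63, nat_lit 63, nat_lit 63, nat_lit 63, nat_lit 63, nat_lit 63, nat_lit 15, nat_lit 63, nat_lit 63, nat_lit 63, nat_lit 63, nat_lit 63, nat_lit 63, nat_lit 63, nat_lit 63, nat_lit 63, nat_lit 63, nat_lit 63, nat_lit 15, nat_lit 63, nat_lit 63, nat_lit 63, nat_lit 63, nat_lit 63, nat_lit 63, nat_lit 63, nat_lit 63, nat_lit 63, nat_lit 63, nat_lit 63, nat_lit 15, nat_lit 63, nat_lit 63, nat_lit 63, nat_lit 63, nat_lit 63, nat_lit 63, nat_lit 63, nat_lit 63, nat_lit 63, nat_lit 63, nat_lit 63, nat_lit 5, nat_lit 63, nat_lit 63, nat_lit 63, nat_lit 63, nat_lit 63,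 nat_lit 63, nat_lit 63, nat_lit 63, nat_lit 63, nat_lit 63, nat_lit 63, nat_lit 63, nat_lit 63, nat_lit 63, nat_lit 15, nat_lit 63, nat_lit 63, nat_lit 63, nat_lit 63, nat_lit 63, nat_lit 63, nat_lit 63, nat_lit 63, nat_lit 63, nat_lit 63, nat_lit 63, nat_lit 63, nat_lit 63, nat_lit 63]

/-- the states at which the upper part stops -/
def Lc2_4 : List St := top SF2 Tc2_4 [Rc2_4] []

/-- the root of the case `c2_5` -/
def Rc2_5 : St := start SF2 (nat_lit 0x1e00007c00000000000000000000000000000000000000000000000000000000000000000000000000000000000000000000000000000000000000000000000000000000000000000000000000000000000000000000000000000000000000000000000000000000000000000000000000000000000000000000000000000000000000000000000000000000000000000000000000000000000000000000000000000000000000000000000000000000000000000000000000000000000000000000000000000000000000000000000000000000000000000000000000000000000000000000000000000000000000000000001bfffdfc0000000000000000000000000000000000000000) (nat_lit 2)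

/-- upper part of the search tree of this case -/
def Tc2_5 : List ℕ :=
  [nat_lit 2, nat_lit 3, nat_lit 26, nat_lit 63, nat_lit 63, nat_lit 63, nat_lit 63, nat_lit 63, nat_lit 63, nat_lit 63, nat_lit 63, nat_lit 63, nat_lit 63, nat_lit 63, nat_lit 63, nat_lit 63, nat_lit 63, nat_lit 26, nat_lit 63, nat_lit 63, nat_lit 63, nat_lit 63, nat_lit 63, nat_lit 63, nat_lit 63, nat_lit 63, nat_lit 63, nat_lit 63, nat_lit 63, nat_lit 15, nat_lit 63, nat_lit 63, nat_lit 63, nat_lit 63, nat_lit 63, nat_lit 63, nat_lit 63, nat_lit 63, nat_lit 63, nat_lit 63, nat_lit 63, nat_lit 15, nat_lit 63, nat_lit 63, nat_lit 63, nat_lit 63, nat_lit 63, nat_lit 63, nat_lit 63, nat_lit 63, nat_lit 63, nat_lit 63, nat_lit 63, nat_lit 15, nat_lit 63, nat_lit 63, nat_lit 63, nat_lit 63, nat_lit 63, nat_lit 63, nat_lit 63, nat_lit 63, nat_lit 63, nat_lit 63, nat_lit 26, nat_lit 63, nat_lit 63, nat_lit 63, nat_lit 63, nat_lit 63, nat_lit 63, nat_lit 63, nat_lit 63, nat_lit 63, nat_lit 63, nat_lit 63, nat_lit 26, nat_lit 63,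 nat_lit 63, nat_lit 63, nat_lit 63, nat_lit 63, nat_lit 63, nat_lit 63, nat_lit 63, nat_lit 63, nat_lit 63, nat_lit 63, nat_lit 26, nat_lit 63, nat_lit 63, nat_lit 63, nat_lit 63, nat_lit 63, nat_lit 63, nat_lit 63, nat_lit 63, nat_lit 63, nat_lit 63, nat_lit 63, nat_lit 26, nat_lit 63, nat_lit 63, nat_lit 63, nat_lit 63, nat_lit 63, nat_lit 63, nat_lit 63, nat_lit 63, nat_lit 63, nat_lit 63, nat_lit 63, nat_lit 15, nat_lit 63, nat_lit 63, nat_lit 63, nat_lit 63, nat_lit 63, nat_lit 63, nat_lit 63, nat_lit 63, nat_lit 63, nat_lit 63, nat_lit 15, nat_lit 63, nat_lit 63, nat_lit 63, nat_lit 63, nat_lit 63, nat_lit 63, nat_lit 63, nat_lit 63, nat_lit 63, nat_lit 63, nat_lit 15, nat_lit 63, nat_lit 63, nat_lit 63, nat_lit 63, nat_lit 63, nat_lit 63, nat_lit 63, nat_lit 63, nat_lit 63, nat_lit 63, nat_lit 4, nat_lit 63, nat_lit 63, nat_lit 63, nat_lit 63, nat_lit 63, nat_lit 63, nat_lit 63, nat_lit 63, nat_lit 63, nat_lit 63, nat_lit 53, nat_lit 63, nat_lit 63, nat_lit 63, nat_lit 63, nat_lit 63, nat_lit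 63, nat_lit 63, nat_lit 63, nat_lit 63, nat_lit 63, nat_lit 63, nat_lit 63, nat_lit 63, nat_lit 26, nat_lit 63, nat_lit 14, nat_lit 63, nat_lit 63, nat_lit 63, nat_lit 63, nat_lit 63, nat_lit 63, nat_lit 63, nat_lit 63, nat_lit 63, nat_lit 63, nat_lit 14, nat_lit 63, nat_lit 63, nat_lit 63, nat_lit 63, nat_lit 63, nat_lit 63, nat_lit 63, nat_lit 63, nat_lit 63, nat_lit 63, nat_lit 14, nat_lit 63, nat_lit 63, nat_lit 63, nat_lit 63, nat_lit 63, nat_lit 63, nat_lit 63, nat_lit 63, nat_lit 63, nat_lit 63, nat_lit 14, nat_lit 63, nat_lit 63, nat_lit 63, nat_lit 63, nat_lit 63, nat_lit 63, nat_lit 63, nat_lit 63, nat_lit 63, nat_lit 63, nat_lit 14, nat_lit 63, nat_lit 63, nat_lit 63, nat_lit 63, nat_lit 63, nat_lit 63, nat_lit 63, nat_lit 63, nat_lit 63, nat_lit 63, nat_lit 14, nat_lit 63, nat_lit 63, nat_lit 63, nat_lit 63, nat_lit 63, nat_lit 63, nat_lit 63, nat_lit 63, nat_lit 63, nat_lit 63, nat_lit 63, nat_lit 14, nat_lit 63, nat_lit 63, nat_lit 63, nat_lit 63, nat_lit 63, nat_lit 63, nat_lit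 63, nat_lit 63, nat_lit 63, nat_lit 63, nat_lit 14, nat_lit 63, nat_lit 63, nat_lit 63, nat_lit 63, nat_lit 63, nat_lit 63, nat_lit 63, nat_lit 63, nat_lit 63, nat_lit 63, nat_lit 14, nat_lit 63, nat_lit 63, nat_lit 63, nat_lit 63, nat_lit 63, nat_lit 63, nat_lit 63, nat_lit 63, nat_lit 63, nat_lit 63, nat_lit 63, nat_lit 63, nat_lit 25, nat_lit 63, nat_lit 63, nat_lit 63, nat_lit 63, nat_lit 63, nat_lit 63, nat_lit 63, nat_lit 63, nat_lit 63, nat_lit 63, nat_lit 63]

/-- the states at which the upper part stops -/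
def Lc2_5 : List St := top SF2 Tc2_5 [Rc2_5] []

/-- the root of the case `c2_6` -/
def Rc2_6 : St := start SF2 (nat_lit 0x1f0000fc00000000000000000000000000000000000000000000000000000000000000000000000000000000000000000000000000000000000000000000000000000000000000000000000000000000000000000000000000000000000000000000000000000000000000000000000000000000000000000000000000000000000000000000000000000000000000000000000000000000000000000000000000000000000000000000000000000000000000000000000000000000000000000000000000000000000000000000000000000000000000000000000000000000000000000000000000000000000000000000001dfffbfc0000000000000000000000000000000000000000) (nat_lit 2)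

/-- upper part of the search tree of this case -/
def Tc2_6 : List ℕ :=
  [nat_lit 2, nat_lit 26, nat_lit 63, nat_lit 25, nat_lit 63, nat_lit 63, nat_lit 63, nat_lit 63, nat_lit 63, nat_lit 63, nat_lit 63, nat_lit 63, nat_lit 63, nat_lit 63, nat_lit 25, nat_lit 63, nat_lit 63, nat_lit 63, nat_lit 63, nat_lit 63, nat_lit 63, nat_lit 63, nat_lit 63, nat_lit 63, nat_lit 63, nat_lit 14, nat_lit 63, nat_lit 63, nat_lit 63, nat_lit 63, nat_lit 63, nat_lit 63, nat_lit 63, nat_lit 63, nat_lit 63, nat_lit 63, nat_lit 14, nat_lit 63, nat_lit 63, nat_lit 63, nat_lit 63, nat_lit 63, nat_lit 63, nat_lit 63, nat_lit 63, nat_lit 63, nat_lit 63, nat_lit 14, nat_lit 63, nat_lit 63, nat_lit 63, nat_lit 63, nat_lit 63, nat_lit 63, nat_lit 63, nat_lit 63, nat_lit 63, nat_lit 63, nat_lit 63, nat_lit 14, nat_lit 63, nat_lit 63, nat_lit 63, nat_lit 63, nat_lit 63, nat_lit 63, nat_lit 63, nat_lit 63, nat_lit 63, nat_lit 63, nat_lit 14, nat_lit 63, nat_lit 63, nat_lit 63, nat_lit 63, nat_lit 63, nat_lit 63, nat_lit 63,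 nat_lit 63, nat_lit 63, nat_lit 63, nat_lit 14, nat_lit 63, nat_lit 63, nat_lit 63, nat_lit 63, nat_lit 63, nat_lit 63, nat_lit 63, nat_lit 63, nat_lit 63, nat_lit 63, nat_lit 14, nat_lit 63, nat_lit 63, nat_lit 63, nat_lit 63, nat_lit 63, nat_lit 63, nat_lit 63, nat_lit 63, nat_lit 63, nat_lit 63, nat_lit 14, nat_lit 63, nat_lit 63, nat_lit 63, nat_lit 63, nat_lit 63, nat_lit 63, nat_lit 63, nat_lit 63, nat_lit 63, nat_lit 63, nat_lit 14, nat_lit 63, nat_lit 63, nat_lit 63, nat_lit 63, nat_lit 63, nat_lit 63, nat_lit 63, nat_lit 63, nat_lit 63, nat_lit 63, nat_lit 25, nat_lit 63, nat_lit 63, nat_lit 63, nat_lit 63, nat_lit 63, nat_lit 63, nat_lit 63, nat_lit 63, nat_lit 63, nat_lit 63, nat_lit 63, nat_lit 26, nat_lit 3, nat_lit 63, nat_lit 63, nat_lit 63, nat_lit 63, nat_lit 63, nat_lit 63, nat_lit 63, nat_lit 63, nat_lit 63, nat_lit 63, nat_lit 63, nat_lit 14, nat_lit 63, nat_lit 63, nat_lit 63, nat_lit 63, nat_lit 63, nat_lit 63, nat_lit 63, nat_lit 63, nat_lit 63, nat_lit 63, nat_lit 63, nat_lit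 14, nat_lit 63, nat_lit 63, nat_lit 63, nat_lit 63, nat_lit 63, nat_lit 63, nat_lit 63, nat_lit 63, nat_lit 63, nat_lit 63, nat_lit 14, nat_lit 63, nat_lit 63, nat_lit 63, nat_lit 63, nat_lit 63, nat_lit 63, nat_lit 63, nat_lit 63, nat_lit 63, nat_lit 63, nat_lit 63, nat_lit 14, nat_lit 63, nat_lit 63, nat_lit 63, nat_lit 63, nat_lit 63, nat_lit 63, nat_lit 63, nat_lit 63, nat_lit 63, nat_lit 63, nat_lit 63, nat_lit 14, nat_lit 63, nat_lit 63, nat_lit 63, nat_lit 63, nat_lit 63, nat_lit 63, nat_lit 63, nat_lit 63, nat_lit 63, nat_lit 63, nat_lit 63, nat_lit 63, nat_lit 14, nat_lit 63, nat_lit 63, nat_lit 63, nat_lit 63, nat_lit 63, nat_lit 63, nat_lit 63, nat_lit 63, nat_lit 63, nat_lit 14, nat_lit 63, nat_lit 63, nat_lit 63, nat_lit 63, nat_lit 63, nat_lit 63, nat_lit 63, nat_lit 63, nat_lit 63, nat_lit 14, nat_lit 63, nat_lit 63, nat_lit 63, nat_lit 63, nat_lit 63, nat_lit 63, nat_lit 63, nat_lit 63, nat_lit 63, nat_lit 63, nat_lit 63, nat_lit 3, nat_lit 63, nat_lit 63, nat_lit 63, nat_lit 63,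 nat_lit 63, nat_lit 63, nat_lit 63, nat_lit 63, nat_lit 63, nat_lit 63, nat_lit 63, nat_lit 63]

/-- the states at which the upper part stops -/
def Lc2_6 : List St := top SF2 Tc2_6 [Rc2_6] []

/-- the root of the case `c2_7` -/
def Rc2_7 : St := start SF2 (nat_lit 0x1f8001fc00000000000000000000000000000000000000000000000000000000000000000000000000000000000000000000000000000000000000000000000000000000000000000000000000000000000000000000000000000000000000000000000000000000000000000000000000000000000000000000000000000000000000000000000000000000000000000000000000000000000000000000000000000000000000000000000000000000000000000000000000000000000000000000000000000000000000000000000000000000000000000000000000000000000000000000000000000000000000000000001efff7fc0000000000000000000000000000000000000000) (nat_lit 2)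

/-- upper part of the search tree of this case -/
def Tc2_7 : List ℕ :=
  [nat_lit 2, nat_lit 26, nat_lit 63, nat_lit 25, nat_lit 63, nat_lit 63, nat_lit 63, nat_lit 63, nat_lit 63, nat_lit 63, nat_lit 63, nat_lit 63, nat_lit 63, nat_lit 63, nat_lit 14, nat_lit 63, nat_lit 63, nat_lit 63, nat_lit 63, nat_lit 63, nat_lit 63, nat_lit 63, nat_lit 63, nat_lit 63, nat_lit 63, nat_lit 14, nat_lit 63, nat_lit 63, nat_lit 63, nat_lit 63, nat_lit 63, nat_lit 63, nat_lit 63, nat_lit 63, nat_lit 63, nat_lit 14, nat_lit 63, nat_lit 63, nat_lit 63, nat_lit 63, nat_lit 63, nat_lit 63, nat_lit 63, nat_lit 63, nat_lit 63, nat_lit 63, nat_lit 63, nat_lit 14, nat_lit 63, nat_lit 63, nat_lit 63, nat_lit 63, nat_lit 63, nat_lit 63, nat_lit 63, nat_lit 63, nat_lit 63, nat_lit 63, nat_lit 63, nat_lit 14, nat_lit 63, nat_lit 63, nat_lit 63, nat_lit 63, nat_lit 63, nat_lit 63, nat_lit 63, nat_lit 63, nat_lit 63, nat_lit 63, nat_lit 63, nat_lit 14, nat_lit 63, nat_lit 63, nat_lit 63, nat_lit 63, nat_lit 63, nat_lit 63,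 nat_lit 63, nat_lit 63, nat_lit 63, nat_lit 63, nat_lit 14, nat_lit 63, nat_lit 63, nat_lit 63, nat_lit 63, nat_lit 63, nat_lit 63, nat_lit 63, nat_lit 63, nat_lit 63, nat_lit 14, nat_lit 63, nat_lit 63, nat_lit 63, nat_lit 63, nat_lit 63, nat_lit 63, nat_lit 63, nat_lit 63, nat_lit 63, nat_lit 63, nat_lit 63, nat_lit 25, nat_lit 63, nat_lit 63, nat_lit 63, nat_lit 63, nat_lit 63, nat_lit 63, nat_lit 63, nat_lit 63, nat_lit 63, nat_lit 63, nat_lit 63, nat_lit 26, nat_lit 63, nat_lit 14, nat_lit 63, nat_lit 63, nat_lit 63, nat_lit 63, nat_lit 63, nat_lit 63, nat_lit 63, nat_lit 63, nat_lit 63, nat_lit 63, nat_lit 63, nat_lit 63, nat_lit 14, nat_lit 63, nat_lit 63, nat_lit 63, nat_lit 63, nat_lit 63, nat_lit 63, nat_lit 63, nat_lit 63, nat_lit 63, nat_lit 63, nat_lit 63, nat_lit 14, nat_lit 63, nat_lit 63, nat_lit 63, nat_lit 63, nat_lit 63, nat_lit 63, nat_lit 63, nat_lit 63, nat_lit 63, nat_lit 63, nat_lit 14, nat_lit 63, nat_lit 63, nat_lit 63, nat_lit 63, nat_lit 63, nat_lit 63, nat_lit 63,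 nat_lit 63, nat_lit 63, nat_lit 63, nat_lit 14, nat_lit 63, nat_lit 63, nat_lit 63, nat_lit 63, nat_lit 63, nat_lit 63, nat_lit 63, nat_lit 63, nat_lit 63, nat_lit 63, nat_lit 63, nat_lit 63, nat_lit 63]

/-- the states at which the upper part stops -/
def Lc2_7 : List St := top SF2 Tc2_7 [Rc2_7] []

/-- the root of the case `c2_8` -/
def Rc2_8 : St := start SF2 (nat_lit 0x1fc003fc00000000000000000000000000000000000000000000000000000000000000000000000000000000000000000000000000000000000000000000000000000000000000000000000000000000000000000000000000000000000000000000000000000000000000000000000000000000000000000000000000000000000000000000000000000000000000000000000000000000000000000000000000000000000000000000000000000000000000000000000000000000000000000000000000000000000000000000000000000000000000000000000000000000000000000000000000000000000000000000001f7feffc0000000000000000000000000000000000000000) (nat_lit 2)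

/-- upper part of the search tree of this case -/
def Tc2_8 : List ℕ :=
  [nat_lit 2, nat_lit 26, nat_lit 25, nat_lit 63, nat_lit 63, nat_lit 63, nat_lit 63, nat_lit 63, nat_lit 63, nat_lit 63, nat_lit 63, nat_lit 63, nat_lit 63, nat_lit 14, nat_lit 63, nat_lit 63, nat_lit 63, nat_lit 63, nat_lit 63, nat_lit 63, nat_lit 63, nat_lit 63, nat_lit 63, nat_lit 63, nat_lit 63, nat_lit 14, nat_lit 63, nat_lit 63, nat_lit 63, nat_lit 63, nat_lit 63, nat_lit 63, nat_lit 63, nat_lit 63, nat_lit 63, nat_lit 63, nat_lit 14, nat_lit 63, nat_lit 63, nat_lit 63, nat_lit 63, nat_lit 63, nat_lit 63, nat_lit 63, nat_lit 63, nat_lit 63, nat_lit 63, nat_lit 14, nat_lit 63, nat_lit 63, nat_lit 63, nat_lit 63, nat_lit 63, nat_lit 63, nat_lit 63, nat_lit 63, nat_lit 63, nat_lit 63, nat_lit 14, nat_lit 63, nat_lit 63, nat_lit 63, nat_lit 63, nat_lit 63, nat_lit 63, nat_lit 63, nat_lit 63, nat_lit 63, nat_lit 63, nat_lit 63, nat_lit 14, nat_lit 63, nat_lit 63, nat_lit 63, nat_lit 63, nat_lit 63, nat_lit 63, nat_lit 63,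 nat_lit 63, nat_lit 63, nat_lit 63, nat_lit 63, nat_lit 14, nat_lit 63, nat_lit 63, nat_lit 63, nat_lit 63, nat_lit 63, nat_lit 63, nat_lit 63, nat_lit 63, nat_lit 63, nat_lit 63, nat_lit 63, nat_lit 3, nat_lit 63, nat_lit 63, nat_lit 63, nat_lit 63, nat_lit 63, nat_lit 63, nat_lit 63, nat_lit 63, nat_lit 63, nat_lit 63, nat_lit 63, nat_lit 26, nat_lit 3, nat_lit 63, nat_lit 63, nat_lit 63, nat_lit 63, nat_lit 63, nat_lit 63, nat_lit 63, nat_lit 63, nat_lit 63, nat_lit 63, nat_lit 63, nat_lit 63, nat_lit 14, nat_lit 63, nat_lit 63, nat_lit 63, nat_lit 63, nat_lit 63, nat_lit 63, nat_lit 63, nat_lit 63, nat_lit 63, nat_lit 63, nat_lit 63, nat_lit 14, nat_lit 63, nat_lit 63, nat_lit 63, nat_lit 63, nat_lit 63, nat_lit 63, nat_lit 63, nat_lit 63, nat_lit 63, nat_lit 63, nat_lit 14, nat_lit 63, nat_lit 63, nat_lit 63, nat_lit 63, nat_lit 63, nat_lit 63, nat_lit 63, nat_lit 63, nat_lit 63, nat_lit 63, nat_lit 14, nat_lit 63, nat_lit 63, nat_lit 63, nat_lit 63, nat_lit 63, nat_lit 63, nat_lit 63, nat_lit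 63, nat_lit 63, nat_lit 63, nat_lit 3, nat_lit 63, nat_lit 63, nat_lit 63, nat_lit 63, nat_lit 63, nat_lit 63, nat_lit 63, nat_lit 63, nat_lit 63, nat_lit 63, nat_lit 63, nat_lit 63, nat_lit 3, nat_lit 63, nat_lit 63, nat_lit 63, nat_lit 63, nat_lit 63, nat_lit 63, nat_lit 63, nat_lit 63, nat_lit 63, nat_lit 63]

/-- the states at which the upper part stops -/
def Lc2_8 : List St := top SF2 Tc2_8 [Rc2_8] []

/-- the root of the case `c2_9` -/
def Rc2_9 : St := start SF2 (nat_lit 0x1fe007fc00000000000000000000000000000000000000000000000000000000000000000000000000000000000000000000000000000000000000000000000000000000000000000000000000000000000000000000000000000000000000000000000000000000000000000000000000000000000000000000000000000000000000000000000000000000000000000000000000000000000000000000000000000000000000000000000000000000000000000000000000000000000000000000000000000000000000000000000000000000000000000000000000000000000000000000000000000000000000000000001fbfdffc0000000000000000000000000000000000000000)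 (nat_lit 2)

/-- upper part of the search tree of this case -/
def Tc2_9 : List ℕ :=
  [nat_lit 2, nat_lit 26, nat_lit 14, nat_lit 63, nat_lit 63, nat_lit 63, nat_lit 63, nat_lit 63, nat_lit 63, nat_lit 63, nat_lit 63, nat_lit 63, nat_lit 63, nat_lit 63, nat_lit 63, nat_lit 14, nat_lit 63, nat_lit 63, nat_lit 63, nat_lit 63, nat_lit 63, nat_lit 63, nat_lit 63, nat_lit 63, nat_lit 63, nat_lit 63, nat_lit 63, nat_lit 14, nat_lit 63, nat_lit 63, nat_lit 63, nat_lit 63, nat_lit 63, nat_lit 63, nat_lit 63, nat_lit 63, nat_lit 63, nat_lit 63, nat_lit 63, nat_lit 14, nat_lit 63, nat_lit 63, nat_lit 63, nat_lit 63, nat_lit 63, nat_lit 63, nat_lit 63, nat_lit 63, nat_lit 63, nat_lit 63, nat_lit 14, nat_lit 63, nat_lit 63, nat_lit 63, nat_lit 63, nat_lit 63, nat_lit 63, nat_lit 63, nat_lit 63, nat_lit 63, nat_lit 63, nat_lit 14, nat_lit 63, nat_lit 63, nat_lit 63, nat_lit 63, nat_lit 63, nat_lit 63, nat_lit 63, nat_lit 63, nat_lit 63, nat_lit 63, nat_lit 63, nat_lit 25, nat_lit 63, nat_lit 63, nat_lit 63,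 nat_lit 63, nat_lit 63, nat_lit 63, nat_lit 63, nat_lit 63, nat_lit 63, nat_lit 63, nat_lit 63, nat_lit 26, nat_lit 3, nat_lit 63, nat_lit 63, nat_lit 63, nat_lit 63, nat_lit 63, nat_lit 63, nat_lit 63, nat_lit 63, nat_lit 63, nat_lit 63, nat_lit 63, nat_lit 3, nat_lit 63, nat_lit 63, nat_lit 63, nat_lit 63, nat_lit 63, nat_lit 63, nat_lit 63, nat_lit 63, nat_lit 63, nat_lit 63, nat_lit 14, nat_lit 63, nat_lit 63, nat_lit 63, nat_lit 63, nat_lit 63, nat_lit 63, nat_lit 63, nat_lit 63, nat_lit 63, nat_lit 63, nat_lit 14, nat_lit 63, nat_lit 63, nat_lit 63, nat_lit 63, nat_lit 63, nat_lit 63, nat_lit 63, nat_lit 63, nat_lit 63, nat_lit 63, nat_lit 63, nat_lit 25, nat_lit 63, nat_lit 63, nat_lit 63, nat_lit 63, nat_lit 63, nat_lit 63, nat_lit 63, nat_lit 63, nat_lit 63, nat_lit 63, nat_lit 63, nat_lit 63, nat_lit 14, nat_lit 63, nat_lit 63, nat_lit 63, nat_lit 63, nat_lit 63, nat_lit 63, nat_lit 63, nat_lit 63, nat_lit 63, nat_lit 63, nat_lit 63, nat_lit 63]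

/-- the states at which the upper part stops -/
def Lc2_9 : List St := top SF2 Tc2_9 [Rc2_9] []

/-- the root of the case `c2_10` -/
def Rc2_10 : St := start SF2 (nat_lit 0x1ff00ffc00000000000000000000000000000000000000000000000000000000000000000000000000000000000000000000000000000000000000000000000000000000000000000000000000000000000000000000000000000000000000000000000000000000000000000000000000000000000000000000000000000000000000000000000000000000000000000000000000000000000000000000000000000000000000000000000000000000000000000000000000000000000000000000000000000000000000000000000000000000000000000000000000000000000000000000000000000000000000000000001fdfbffc0000000000000000000000000000000000000000) (nat_lit 2)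

/-- upper part of the search tree of this case -/
def Tc2_10 : List ℕ :=
  [nat_lit 2, nat_lit 26, nat_lit 63, nat_lit 3, nat_lit 63, nat_lit 63, nat_lit 63, nat_lit 63, nat_lit 63, nat_lit 63, nat_lit 63, nat_lit 63, nat_lit 63, nat_lit 63, nat_lit 63, nat_lit 14, nat_lit 63, nat_lit 63, nat_lit 63, nat_lit 63, nat_lit 63, nat_lit 63, nat_lit 63, nat_lit 63, nat_lit 63, nat_lit 63, nat_lit 63, nat_lit 14, nat_lit 63, nat_lit 63, nat_lit 63, nat_lit 63, nat_lit 63, nat_lit 63, nat_lit 63, nat_lit 63, nat_lit 63, nat_lit 63, nat_lit 63, nat_lit 25, nat_lit 63, nat_lit 63, nat_lit 63, nat_lit 63, nat_lit 63, nat_lit 63, nat_lit 63, nat_lit 63, nat_lit 63, nat_lit 63, nat_lit 63, nat_lit 63, nat_lit 26, nat_lit 63, nat_lit 3, nat_lit 63, nat_lit 63, nat_lit 63, nat_lit 63, nat_lit 63, nat_lit 63, nat_lit 63, nat_lit 63, nat_lit 63, nat_lit 63, nat_lit 63, nat_lit 63, nat_lit 63]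

/-- the states at which the upper part stops -/
def Lc2_10 : List St := top SF2 Tc2_10 [Rc2_10] []

/-- the root of the case `c2_11` -/
def Rc2_11 : St := start SF2 (nat_lit 0x1ff81ffc00000000000000000000000000000000000000000000000000000000000000000000000000000000000000000000000000000000000000000000000000000000000000000000000000000000000000000000000000000000000000000000000000000000000000000000000000000000000000000000000000000000000000000000000000000000000000000000000000000000000000000000000000000000000000000000000000000000000000000000000000000000000000000000000000000000000000000000000000000000000000000000000000000000000000000000000000000000000000000000001fef7ffc0000000000000000000000000000000000000000) (nat_lit 2)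

/-- upper part of the search tree of this case -/
def Tc2_11 : List ℕ :=
  [nat_lit 2, nat_lit 26, nat_lit 3, nat_lit 63, nat_lit 63, nat_lit 63, nat_lit 63, nat_lit 63, nat_lit 63, nat_lit 63, nat_lit 63, nat_lit 63, nat_lit 63, nat_lit 63, nat_lit 25, nat_lit 63, nat_lit 63, nat_lit 63, nat_lit 63, nat_lit 63, nat_lit 63, nat_lit 63, nat_lit 63, nat_lit 63, nat_lit 63, nat_lit 63, nat_lit 63, nat_lit 63, nat_lit 26, nat_lit 25, nat_lit 63, nat_lit 63, nat_lit 63, nat_lit 63, nat_lit 63, nat_lit 63, nat_lit 63, nat_lit 63, nat_lit 63, nat_lit 63, nat_lit 63, nat_lit 63, nat_lit 63, nat_lit 3, nat_lit 63, nat_lit 63, nat_lit 63, nat_lit 63, nat_lit 63, nat_lit 63, nat_lit 63, nat_lit 63, nat_lit 63, nat_lit 63, nat_lit 63, nat_lit 63, nat_lit 25, nat_lit 63, nat_lit 63, nat_lit 63, nat_lit 63, nat_lit 63, nat_lit 63, nat_lit 63, nat_lit 63, nat_lit 63, nat_lit 63, nat_lit 63]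

/-- the states at which the upper part stops -/
def Lc2_11 : List St := top SF2 Tc2_11 [Rc2_11] []

/-- the root of the case `c2_12` -/
def Rc2_12 : St := start SF2 (nat_lit 0x1ffc3ffc00000000000000000000000000000000000000000000000000000000000000000000000000000000000000000000000000000000000000000000000000000000000000000000000000000000000000000000000000000000000000000000000000000000000000000000000000000000000000000000000000000000000000000000000000000000000000000000000000000000000000000000000000000000000000000000000000000000000000000000000000000000000000000000000000000000000000000000000000000000000000000000000000000000000000000000000000000000000000000000001ff6fffc0000000000000000000000000000000000000000) (nat_lit 2)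

/-- upper part of the search tree of this case -/
def Tc2_12 : List ℕ :=
  [nat_lit 2, nat_lit 26, nat_lit 24, nat_lit 63, nat_lit 63, nat_lit 63, nat_lit 63, nat_lit 63, nat_lit 63, nat_lit 63, nat_lit 63, nat_lit 63, nat_lit 63, nat_lit 63, nat_lit 63, nat_lit 26, nat_lit 28, nat_lit 63, nat_lit 63, nat_lit 63, nat_lit 63, nat_lit 63, nat_lit 63, nat_lit 63, nat_lit 63, nat_lit 63, nat_lit 63, nat_lit 63, nat_lit 63]

/-- the states at which the upper part stops -/
def Lc2_12 : List St := top SF2 Tc2_12 [Rc2_12] []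

/-- the root of the case `c2_13` -/
def Rc2_13 : St := start SF2 (nat_lit 0x1ffe7ffc00000000000000000000000000000000000000000000000000000000000000000000000000000000000000000000000000000000000000000000000000000000000000000000000000000000000000000000000000000000000000000000000000000000000000000000000000000000000000000000000000000000000000000000000000000000000000000000000000000000000000000000000000000000000000000000000000000000000000000000000000000000000000000000000000000000000000000000000000000000000000000000000000000000000000000000000000000000000000000000001ff9fffc0000000000000000000000000000000000000000) (nat_lit 2)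

/-- upper part of the search tree of this case -/
def Tc2_13 : List ℕ :=
  [nat_lit 26, nat_lit 2, nat_lit 28, nat_lit 63, nat_lit 63, nat_lit 63, nat_lit 63, nat_lit 63, nat_lit 63, nat_lit 63, nat_lit 63, nat_lit 63, nat_lit 63, nat_lit 63, nat_lit 63, nat_lit 63, nat_lit 63, nat_lit 2, nat_lit 24, nat_lit 63, nat_lit 63, nat_lit 63, nat_lit 63, nat_lit 63, nat_lit 63, nat_lit 63, nat_lit 63, nat_lit 63, nat_lit 63, nat_lit 63, nat_lit 63, nat_lit 63, nat_lit 63, nat_lit 63]

/-- the states at which the upper part stops -/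
def Lc2_13 : List St := top SF2 Tc2_13 [Rc2_13] []

/-- the root of the case `c3_0` -/
def Rc3_0 : St := start SF3 (nat_lit 0x0) (nat_lit 3)

/-- upper part of the search tree of this case -/
def Tc3_0 : List ℕ :=
  [nat_lit 2, nat_lit 3, nat_lit 63, nat_lit 63, nat_lit 63, nat_lit 63, nat_lit 63, nat_lit 63, nat_lit 63, nat_lit 63, nat_lit 63, nat_lit 63, nat_lit 63, nat_lit 63, nat_lit 3, nat_lit 63, nat_lit 63, nat_lit 63, nat_lit 63, nat_lit 63, nat_lit 63, nat_lit 63, nat_lit 63, nat_lit 63, nat_lit 63, nat_lit 3, nat_lit 63, nat_lit 63, nat_lit 63, nat_lit 63, nat_lit 63, nat_lit 63, nat_lit 63, nat_lit 63, nat_lit 63, nat_lit 3, nat_lit 63, nat_lit 63, nat_lit 63, nat_lit 63, nat_lit 63, nat_lit 63, nat_lit 63, nat_lit 63, nat_lit 63, nat_lit 3, nat_lit 63, nat_lit 63, nat_lit 63, nat_lit 63, nat_lit 63, nat_lit 63, nat_lit 63, nat_lit 63, nat_lit 63, nat_lit 3, nat_lit 63, nat_lit 63, nat_lit 63, nat_lit 63, nat_lit 63, nat_lit 63, nat_lit 63, nat_lit 63, nat_lit 63, nat_lit 3, nat_lit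 63, nat_lit 63, nat_lit 63, nat_lit 63, nat_lit 63, nat_lit 63, nat_lit 63, nat_lit 63, nat_lit 63, nat_lit 63, nat_lit 26, nat_lit 63, nat_lit 63, nat_lit 63, nat_lit 63, nat_lit 63, nat_lit 63, nat_lit 63, nat_lit 63, nat_lit 63, nat_lit 63, nat_lit 63, nat_lit 26, nat_lit 63, nat_lit 63, nat_lit 63, nat_lit 63, nat_lit 63, nat_lit 63, nat_lit 63, nat_lit 63, nat_lit 63, nat_lit 63, nat_lit 63, nat_lit 63, nat_lit 26, nat_lit 63, nat_lit 63, nat_lit 63, nat_lit 63, nat_lit 63, nat_lit 63, nat_lit 63, nat_lit 63, nat_lit 63, nat_lit 63, nat_lit 63, nat_lit 63, nat_lit 26, nat_lit 63, nat_lit 63, nat_lit 63, nat_lit 63, nat_lit 63, nat_lit 63, nat_lit 63, nat_lit 63, nat_lit 63, nat_lit 63, nat_lit 63, nat_lit 3, nat_lit 63, nat_lit 63, nat_lit 63, nat_lit 63, nat_lit 63, nat_lit 63, nat_lit 63, nat_lit 63, nat_lit 63, nat_lit 63, nat_lit 63, nat_lit 3, nat_lit 63, nat_lit 63, nat_lit 63, nat_lit 63, nat_lit 63, nat_lit 63, nat_lit 63, nat_lit 63, nat_lit 63, nat_lit 63, nat_lit 3, nat_lit 63,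 nat_lit 63, nat_lit 63, nat_lit 63, nat_lit 63, nat_lit 63, nat_lit 63, nat_lit 63, nat_lit 63, nat_lit 3, nat_lit 63, nat_lit 63, nat_lit 63, nat_lit 63, nat_lit 63, nat_lit 63, nat_lit 63, nat_lit 63, nat_lit 63, nat_lit 3, nat_lit 63, nat_lit 63, nat_lit 63, nat_lit 63, nat_lit 63, nat_lit 63, nat_lit 63, nat_lit 63, nat_lit 63, nat_lit 3, nat_lit 63, nat_lit 63, nat_lit 63, nat_lit 63, nat_lit 63, nat_lit 63, nat_lit 63, nat_lit 63, nat_lit 63, nat_lit 63, nat_lit 3, nat_lit 63, nat_lit 63, nat_lit 63, nat_lit 63, nat_lit 63, nat_lit 63, nat_lit 63, nat_lit 63, nat_lit 63, nat_lit 63, nat_lit 63]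

/-- the states at which the upper part stops -/
def Lc3_0 : List St := top SF3 Tc3_0 [Rc3_0] []

/-- the root of the case `c4_0` -/
def Rc4_0 : St := start SF4 (nat_lit 0x0) (nat_lit 4)

/-- upper part of the search tree of this case -/
def Tc4_0 : List ℕ :=
  [nat_lit 2, nat_lit 3, nat_lit 63, nat_lit 63, nat_lit 63, nat_lit 63, nat_lit 63, nat_lit 63, nat_lit 63, nat_lit 63, nat_lit 63, nat_lit 63, nat_lit 63, nat_lit 3, nat_lit 63, nat_lit 63, nat_lit 63, nat_lit 63, nat_lit 63, nat_lit 63, nat_lit 63, nat_lit 63, nat_lit 63, nat_lit 63, nat_lit 63, nat_lit 63, nat_lit 63, nat_lit 63, nat_lit 63, nat_lit 63, nat_lit 63, nat_lit 63, nat_lit 63, nat_lit 63, nat_lit 63, nat_lit 63, nat_lit 63]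

/-- the states at which the upper part stops -/
def Lc4_0 : List St := top SF4 Tc4_0 [Rc4_0] []

/-- the root of the case `c5_0` -/
def Rc5_0 : St := start SF5 (nat_lit 0x0) (nat_lit 5)

/-- upper part of the search tree of this case -/
def Tc5_0 : List ℕ :=
  [nat_lit 2, nat_lit 63, nat_lit 63, nat_lit 63, nat_lit 63, nat_lit 63, nat_lit 63, nat_lit 63, nat_lit 63, nat_lit 63, nat_lit 63, nat_lit 63, nat_lit 63, nat_lit 63, nat_lit 63]

/-- the states at which the upper part stops -/
def Lc5_0 : List St := top SF5 Tc5_0 [Rc5_0] []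

/-- the root of the case `c6_0` -/
def Rc6_0 : St := start SF6 (nat_lit 0x0) (nat_lit 6)

/-- the root of the case `c7_0` -/
def Rc7_0 : St := start SF7 (nat_lit 0x0) (nat_lit 7)

/-- the root of the case `c8_0` -/
def Rc8_0 : St := start SF8 (nat_lit 0x0) (nat_lit 8)

/-- the root of the case `c9_0` -/
def Rc9_0 : St := start SF9 (nat_lit 0x0) (nat_lit 9)

/-- the root of the case `c10_0` -/
def Rc10_0 : St := start SF10 (nat_lit 0x0) (nat_lit 10)

/-- the root of the case `c11_0` -/
def Rc11_0 : St := start SF11 (nat_lit 0x0) (nat_lit 11)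

/-- the root of the case `c12_0` -/
def Rc12_0 : St := start SF12 (nat_lit 0x0) (nat_lit 12)

/-- the root of the case `c13_0` -/
def Rc13_0 : St := start SF13 (nat_lit 0x0) (nat_lit 13)

end Pool.Agent.Q50.Z27
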