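import Mathlib
import Pool.Agent.Q50.Z27.Sound
import Pool.Agent.Q50.Z27.Tops

namespace Pool.Agent.Q50.Z27

/-- the distance from `0` -/
def absZ (y : Z) : ℕ := min y.val (27 - y.val)

theorem absZ_neg : ∀ d : Z, absZ (-d) = absZ d := by decide

theorem absZ_le : ∀ d : Z, absZ d ≤ 13 := by decide

theorem absZ_cast (c : ℕ) : absZ (c : Z) = absN c := by
  unfold absZ absN
  rw [ZMod.val_natCast]

/-- neighbouring positions have values at distance at least `m`, and conversely -/
def MinD (m : ℕ) (π : Z → Z) : Prop :=
  (∀ x z : Z, z - x = 1 ∨ z - x = 26 → m ≤ absZ (π z - π x)) ∧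
    ∀ x z : Z, π z - π x = 1 ∨ π z - π x = 26 → m ≤ absZ (z - x)

theorem sf_bit2 : ∀ r < 81, ∀ c < 81, SF2.testBit (81 * r + c) = true → selfN 2 r c = true := by
  decide +kernel

theorem sf_bit3 : ∀ r < 81, ∀ c < 81, SF3.testBit (81 * r + c) = true → selfN 3 r c = true := by
  decide +kernel

theorem sf_bit4 : ∀ r < 81, ∀ c < 81, SF4.testBit (81 * r + c) = true → selfN 4 r c = true := by
  decide +kernel

theorem sf_bit5 : ∀ r < 81, ∀ c < 81, SF5.testBit (81 * r + c) = true → selfN 5 r c = true := by
  decide +kernel

theorem sf_bit6 : ∀ r < 81, ∀ c < 81, SF6.testBit (81 * r + c) = true → selfN 6 r c = true := by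
  decide +kernel

theorem sf_bit7 : ∀ r < 81, ∀ c < 81, SF7.testBit (81 * r + c) = true → selfN 7 r c = true := by
  decide +kernel

theorem sf_bit8 : ∀ r < 81, ∀ c < 81, SF8.testBit (81 * r + c) = true → selfN 8 r c = true := by
  decide +kernel

theorem sf_bit9 : ∀ r < 81, ∀ c < 81, SF9.testBit (81 * r + c) = true → selfN 9 r c = true := by
  decide +kernel

theorem sf_bit10 : ∀ r < 81, ∀ c < 81, SF10.testBit (81 * r + c) = true → selfN 10 r c = true := by
  decide +kernel

theorem sf_bit11 : ∀ r < 81, ∀ c < 81, SF11.testBit (81 * r + c) = true → selfN 11 r c = true := by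
  decide +kernel

theorem sf_bit12 : ∀ r < 81, ∀ c < 81, SF12.testBit (81 * r + c) = true → selfN 12 r c = true := by
  decide +kernel

theorem sf_bit13 : ∀ r < 81, ∀ c < 81, SF13.testBit (81 * r + c) = true → selfN 13 r c = true := by
  decide +kernel

theorem cast_zero_of {r : ℕ} (h : r % 27 = 0) : (r : Z) = 0 := by
  rw [← cast_mod, h]; rfl

theorem self_false {m : ℕ} {π : Z → Z} (hG : Good π) (hM : MinD m π) (x z : Z) (r c : ℕ)
    (hr : (r : Z) = z - x) (hc : (c : Z) = π z - π x) : selfN m r c = false := by
  by_contra hcon
  rw [Bool.not_eq_false] at hcon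
  unfold selfN at hcon
  rw [Bool.and_eq_true] at hcon
  obtain ⟨h0, h1⟩ := hcon
  have hne : z ≠ x := by
    rintro rfl
    rw [sub_self] at hr hc
    simp [zero_of hr, zero_of hc] at h0
  simp only [Bool.or_eq_true, Bool.and_eq_true, decide_eq_true_eq, beq_iff_eq] at h1
  rcases h1 with ((((h | h) | ⟨h, h'⟩) | ⟨h, h'⟩) | ⟨h, h'⟩) | ⟨h, h'⟩
  · have := cast_zero_of h
    rw [this] at hr
    exact hne (sub_eq_zero.1 hr.symm)
  · have := cast_zero_of h
    rw [this] at hc
    exact hne (hG.1.1 (sub_eq_zero.1 hc.symm))
  · rw [← near_cast, hr] at h
    rw [← near_cast, hc] at h'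
    exact hne (hG.2 z x x (by convert h using 1; ring) (by convert h' using 1; ring)).1
  · rw [← near_cast] at h h'
    push_cast at h h'
    rw [hr] at h
    rw [hc] at h'
    exact hne (hG.2 z x z (by convert h using 1; ring) (by convert h' using 1; ring)).1
  · rw [← near_cast, hr] at h
    rw [← absZ_cast, hc] at h'
    rcases h with h | h | h
    · exact hne (sub_eq_zero.1 h)
    · exact absurd (hM.1 x z (Or.inl h)) (by omega)
    · exact absurd (hM.1 x z (Or.inr h)) (by omega)
  · rw [← near_cast, hc] at h
    rw [← absZ_cast, hr] at h'
    rcases h with h | h | h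
    · exact hne (hG.1.1 (sub_eq_zero.1 h))
    · exact absurd (hM.2 x z (Or.inl h)) (by omega)
    · exact absurd (hM.2 x z (Or.inr h)) (by omega)

theorem K_of {m sf : ℕ} (hsf : ∀ r < 81, ∀ c < 81, sf.testBit (81 * r + c) = true →
    selfN m r c = true) {π : Z → Z} (hG : Good π) (hM : MinD m π) : K sf π :=
  ⟨hG, fun x z r c hr hc h1 h2 => by
    rcases h : sf.testBit (81 * r + c) with _ | _
    · rfl
    · have := hsf r hr c hc h
      rw [self_false hG hM x z r c h1 h2] at this
      exact Bool.noConfusion this⟩

/-- the start of a case -/
theorem start_inv {m sf X : ℕ} {π : Z → Z} (hK : K sf π) (hm : m < 27) (h0 : π 0 = 0)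
    (h1 : π 1 = m)
    (hX : ∀ z < 27, ∀ w < 27, X.testBit (81 * z + w) = true → π (z : ℕ) ≠ (w : ℕ)) :
    Inv π (start sf X m) := by
  have e : start sf X m = asg sf (asg sf ⟨X, 0, 0, 0⟩ 0 0) 1 m := rfl
  rw [e]
  refine inv_asg hK (inv_asg hK ?_ (by norm_num) (by norm_num) (by simpa using h0))
    (by norm_num) hm (by simpa using h1)
  refine ⟨fun z w hz hw h => hX z hz w hw h, ?_, ?_, ?_⟩ <;> intro r c _ _ h <;> simp at h

theorem good_tr {τ : Z → Z} (hG : Good τ) {ε δ : Z} (hε : ε = 1 ∨ ε = -1) (hδ : δ = 1 ∨ δ = -1)
    (s t : Z) : Good fun x => ε * (τ (δ * x + s) - t) := by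
  refine ⟨Finite.injective_iff_bijective.1 fun x y h => ?_, fun a b c h h' => ?_⟩
  · have h2 : τ (δ * x + s) = τ (δ * y + s) := by
      rcases hε with rfl | rfl
      · simpa using h
      · simpa using h
    have h3 := hG.1.1 h2
    rcases hδ with rfl | rfl
    · simpa using h3
    · simpa using h3
  · have e1 : near ((δ * a + s) + (δ * c + s) - 2 * (δ * b + s)) := by
      rcases hδ with rfl | rfl
      · convert h using 1; ring
      · convert near_neg h using 1; ring
    have e2 : near (τ (δ * a + s) + τ (δ * c + s) - 2 * τ (δ * b + s)) := by
      rcases hε with rfl | rfl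
      · convert h' using 1; ring
      · convert near_neg h' using 1; ring
    obtain ⟨h1, h2⟩ := hG.2 _ _ _ e1 e2
    rcases hδ with rfl | rfl
    · exact ⟨by simpa using h1, by simpa using h2⟩
    · exact ⟨by simpa using h1, by simpa using h2⟩

theorem one_neg {d : Z} (h : -d = 1 ∨ -d = 26) : d = 1 ∨ d = 26 := by
  rcases h with h | h
  · right; rw [← neg_neg d, h]; decide
  · left; rw [← neg_neg d, h]; decide

theorem minD_tr {m : ℕ} {τ : Z → Z} (hM : MinD m τ) {ε δ : Z} (hε : ε = 1 ∨ ε = -1)
    (hδ : δ = 1 ∨ δ = -1) (s t : Z) : MinD m fun x => ε * (τ (δ * x + s) - t) := by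
  have habs : ∀ d : Z, absZ (ε * d) = absZ d := by
    intro d
    rcases hε with rfl | rfl
    · rw [one_mul]
    · rw [neg_one_mul, absZ_neg]
  have habs' : ∀ d : Z, absZ (δ * d) = absZ d := by
    intro d
    rcases hδ with rfl | rfl
    · rw [one_mul]
    · rw [neg_one_mul, absZ_neg]
  refine ⟨fun x z h => ?_, fun x z h => ?_⟩
  · have h1 : (δ * z + s) - (δ * x + s) = 1 ∨ (δ * z + s) - (δ * x + s) = 26 := by
      have e : (δ * z + s) - (δ * x + s) = δ * (z - x) := by ring
      rw [e]
      rcases hδ with rfl | rfl
      · rwa [one_mul]
      · rw [neg_one_mul]; exact one_neg (by rwa [neg_neg])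
    have h2 := hM.1 _ _ h1
    have e : (fun x => ε * (τ (δ * x + s) - t)) z - (fun x => ε * (τ (δ * x + s) - t)) x =
        ε * (τ (δ * z + s) - τ (δ * x + s)) := by ring
    rw [e, habs]
    exact h2
  · have e : (fun x => ε * (τ (δ * x + s) - t)) z - (fun x => ε * (τ (δ * x + s) - t)) x =
        ε * (τ (δ * z + s) - τ (δ * x + s)) := by ring
    rw [e] at h
    have h1 : τ (δ * z + s) - τ (δ * x + s) = 1 ∨ τ (δ * z + s) - τ (δ * x + s) = 26 := by
      rcases hε with rfl | rfl
      · rwa [one_mul] at h
      · rw [neg_one_mul] at h; exact one_neg h
    have h2 := hM.2 _ _ h1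
    have e2 : (δ * z + s) - (δ * x + s) = δ * (z - x) := by ring
    rw [e2, habs'] at h2
    exact h2

theorem good_symm {e : Equiv.Perm Z} (hG : Good e) : Good e.symm := by
  refine ⟨e.symm.bijective, fun a b c h h' => ?_⟩
  obtain ⟨h1, h2⟩ := hG.2 (e.symm a) (e.symm b) (e.symm c) h' (by simpa using h)
  exact ⟨e.symm.injective h1, e.symm.injective h2⟩

theorem abs_cases : ∀ (d : Z), d = ((absZ d : ℕ) : Z) ∨ -d = ((absZ d : ℕ) : Z) := by decide

theorem minD_of {e : Equiv.Perm Z} {m : ℕ} (h1 : ∀ x, m ≤ absZ (e (x + 1) - e x))
    (h2 : ∀ x, m ≤ absZ (e.symm (x + 1) - e.symm x)) : MinD m e := by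
  have k26 : (26 : Z) = -1 := by decide
  refine ⟨fun x z h => ?_, fun x z h => ?_⟩
  · rcases h with h | h
    · have : z = x + 1 := by linear_combination h
      rw [this]; exact h1 x
    · have : x = z + 1 := by linear_combination -h - k26
      rw [this, ← absZ_neg, neg_sub]; exact h1 z
  · rcases h with h | h
    · have := h2 (e x)
      have e1 : e x + 1 = e z := by linear_combination -h
      rwa [e1, e.symm_apply_apply, e.symm_apply_apply] at this
    · have := h2 (e z)
      have e1 : e z + 1 = e x := by linear_combination h + k26
      rw [e1, e.symm_apply_apply, e.symm_apply_apply] at this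
      rwa [← absZ_neg, neg_sub]

/-- normal form -/
theorem normal {e : Equiv.Perm Z} (hG : Good e) : ∃ (m : ℕ) (ρ : Z → Z), 2 ≤ m ∧ m ≤ 13 ∧
    Good ρ ∧ MinD m ρ ∧ ρ 0 = 0 ∧ ρ 1 = m := by
  let f : Z × Bool → ℕ := fun p =>
    bif p.2 then absZ (e (p.1 + 1) - e p.1) else absZ (e.symm (p.1 + 1) - e.symm p.1)
  obtain ⟨⟨x0, b⟩, -, hmin⟩ := Finset.exists_min_image (Finset.univ : Finset (Z × Bool)) f
    Finset.univ_nonempty
  obtain ⟨τ, hτG, hτ1, hτ2, hx0⟩ : ∃ τ : Equiv.Perm Z, Good τ ∧
      (∀ x, f (x0, b) ≤ absZ (τ (x + 1) - τ x)) ∧
      (∀ x, f (x0, b) ≤ absZ (τ.symm (x + 1) - τ.symm x)) ∧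
      absZ (τ (x0 + 1) - τ x0) = f (x0, b) := by
    cases b with
    | true =>
      exact ⟨e, hG, fun x => hmin (x, true) (Finset.mem_univ _),
        fun x => hmin (x, false) (Finset.mem_univ _), rfl⟩
    | false =>
      exact ⟨e.symm, good_symm hG, fun x => hmin (x, false) (Finset.mem_univ _),
        fun x => hmin (x, true) (Finset.mem_univ _), rfl⟩
  set m := f (x0, b) with hm
  have hM : MinD m τ := minD_of hτ1 hτ2
  obtain ⟨ε, hε, hε1⟩ : ∃ ε : Z, (ε = 1 ∨ ε = -1) ∧ ε * (τ (x0 + 1) - τ x0) = (m : Z) := by
    rcases abs_cases (τ (x0 + 1) - τ x0) with h | h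
    · exact ⟨1, Or.inl rfl, by rw [one_mul, h, hx0]⟩
    · exact ⟨-1, Or.inr rfl, by rw [neg_one_mul, h, hx0]⟩
  refine ⟨m, fun x => ε * (τ (1 * x + x0) - τ x0), ?_, ?_, good_tr hτG hε (Or.inl rfl) _ _,
    minD_tr hM hε (Or.inl rfl) _ _, ?_, ?_⟩
  · by_contra hlt
    have hnear : near (τ (x0 + 1) - τ x0) := by
      have : m = 0 ∨ m = 1 := by omega
      have key : ∀ d : Z, absZ d = 0 ∨ absZ d = 1 → near d := by decide
      exact key _ (by rw [hx0]; exact this)
    have := (hτG.2 (x0 + 1) x0 x0 (by right; left; ring) (by convert hnear using 1; ring)).1
    have h10 : (1 : Z) = 0 := by linear_combination this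
    exact absurd h10 (by decide)
  · rw [← hx0]; exact absZ_le _
  · simp
  · rw [← hε1]; ring_nf

theorem x_bit2 : ∀ z < 27, ∀ w < 27, Nat.testBit (nat_lit 0x1000000c00000000000000000000000000000000000000000000000000000000000000000000000000000000000000000000000000000000000000000000000000000000000000000000000000000000000000000000000000000000000000000000000000000000000000000000000000000000000000000000000000000000000000000000000000000000000000000000000000000000000000000000000000000000000000000000000000000000000000000000000000000000000000000000000000000000000000000000000000000000000000000000000000000000000000000000000000000000000000000000001fffffb80000000000000000000000000000000000000000) (81 * z + w) = true →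
    (z = 2 ∧ absZ ((w : ℕ) - 2 : Z) ≠ 2) ∨ (z = 26 ∧ absZ ((w : ℕ) : Z) < 2) := by decide +kernel

theorem x_bit3 : ∀ z < 27, ∀ w < 27, Nat.testBit (nat_lit 0x1800001c00000000000000000000000000000000000000000000000000000000000000000000000000000000000000000000000000000000000000000000000000000000000000000000000000000000000000000000000000000000000000000000000000000000000000000000000000000000000000000000000000000000000000000000000000000000000000000000000000000000000000000000000000000000000000000000000000000000000000000000000000000000000000000000000000000000000000000000000000000000000000000000000000000000000000000000000000000000000000000000000fffff7c0000000000000000000000000000000000000000) (81 * z + w) = true →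
    (z = 2 ∧ absZ ((w : ℕ) - 2 : Z) ≠ 3) ∨ (z = 26 ∧ absZ ((w : ℕ) : Z) < 3) := by decide +kernel

theorem x_bit4 : ∀ z < 27, ∀ w < 27, Nat.testBit (nat_lit 0x1c00003c000000000000000000000000000000000000000000000000000000000000000000000000000000000000000000000000000000000000000000000000000000000000000000000000000000000000000000000000000000000000000000000000000000000000000000000000000000000000000000000000000000000000000000000000000000000000000000000000000000000000000000000000000000000000000000000000000000000000000000000000000000000000000000000000000000000000000000000000000000000000000000000000000000000000000000000000000000000000000000000017fffefc0000000000000000000000000000000000000000) (81 * z + w) = true →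
    (z = 2 ∧ absZ ((w : ℕ) - 2 : Z) ≠ 4) ∨ (z = 26 ∧ absZ ((w : ℕ) : Z) < 4) := by decide +kernel

theorem x_bit5 : ∀ z < 27, ∀ w < 27, Nat.testBit (nat_lit 0x1e00007c00000000000000000000000000000000000000000000000000000000000000000000000000000000000000000000000000000000000000000000000000000000000000000000000000000000000000000000000000000000000000000000000000000000000000000000000000000000000000000000000000000000000000000000000000000000000000000000000000000000000000000000000000000000000000000000000000000000000000000000000000000000000000000000000000000000000000000000000000000000000000000000000000000000000000000000000000000000000000000000001bfffdfc0000000000000000000000000000000000000000) (81 * z + w) = true →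
    (z = 2 ∧ absZ ((w : ℕ) - 2 : Z) ≠ 5) ∨ (z = 26 ∧ absZ ((w : ℕ) : Z) < 5) := by decide +kernel

theorem x_bit6 : ∀ z < 27, ∀ w < 27, Nat.testBit (nat_lit 0x1f0000fc00000000000000000000000000000000000000000000000000000000000000000000000000000000000000000000000000000000000000000000000000000000000000000000000000000000000000000000000000000000000000000000000000000000000000000000000000000000000000000000000000000000000000000000000000000000000000000000000000000000000000000000000000000000000000000000000000000000000000000000000000000000000000000000000000000000000000000000000000000000000000000000000000000000000000000000000000000000000000000000001dfffbfc0000000000000000000000000000000000000000) (81 * z + w) = true →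
    (z = 2 ∧ absZ ((w : ℕ) - 2 : Z) ≠ 6) ∨ (z = 26 ∧ absZ ((w : ℕ) : Z) < 6) := by decide +kernel

theorem x_bit7 : ∀ z < 27, ∀ w < 27, Nat.testBit (nat_lit 0x1f8001fc00000000000000000000000000000000000000000000000000000000000000000000000000000000000000000000000000000000000000000000000000000000000000000000000000000000000000000000000000000000000000000000000000000000000000000000000000000000000000000000000000000000000000000000000000000000000000000000000000000000000000000000000000000000000000000000000000000000000000000000000000000000000000000000000000000000000000000000000000000000000000000000000000000000000000000000000000000000000000000000001efff7fc0000000000000000000000000000000000000000) (81 * z + w) = true →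
    (z = 2 ∧ absZ ((w : ℕ) - 2 : Z) ≠ 7) ∨ (z = 26 ∧ absZ ((w : ℕ) : Z) < 7) := by decide +kernel

theorem x_bit8 : ∀ z < 27, ∀ w < 27, Nat.testBit (nat_lit 0x1fc003fc00000000000000000000000000000000000000000000000000000000000000000000000000000000000000000000000000000000000000000000000000000000000000000000000000000000000000000000000000000000000000000000000000000000000000000000000000000000000000000000000000000000000000000000000000000000000000000000000000000000000000000000000000000000000000000000000000000000000000000000000000000000000000000000000000000000000000000000000000000000000000000000000000000000000000000000000000000000000000000000001f7feffc0000000000000000000000000000000000000000) (81 * z + w) = true →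
    (z = 2 ∧ absZ ((w : ℕ) - 2 : Z) ≠ 8) ∨ (z = 26 ∧ absZ ((w : ℕ) : Z) < 8) := by decide +kernel

theorem x_bit9 : ∀ z < 27, ∀ w < 27, Nat.testBit (nat_lit 0x1fe007fc00000000000000000000000000000000000000000000000000000000000000000000000000000000000000000000000000000000000000000000000000000000000000000000000000000000000000000000000000000000000000000000000000000000000000000000000000000000000000000000000000000000000000000000000000000000000000000000000000000000000000000000000000000000000000000000000000000000000000000000000000000000000000000000000000000000000000000000000000000000000000000000000000000000000000000000000000000000000000000000001fbfdffc0000000000000000000000000000000000000000) (81 * z + w) = true →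
    (z = 2 ∧ absZ ((w : ℕ) - 2 : Z) ≠ 9) ∨ (z = 26 ∧ absZ ((w : ℕ) : Z) < 9) := by decide +kernel

theorem x_bit10 : ∀ z < 27, ∀ w < 27, Nat.testBit (nat_lit 0x1ff00ffc00000000000000000000000000000000000000000000000000000000000000000000000000000000000000000000000000000000000000000000000000000000000000000000000000000000000000000000000000000000000000000000000000000000000000000000000000000000000000000000000000000000000000000000000000000000000000000000000000000000000000000000000000000000000000000000000000000000000000000000000000000000000000000000000000000000000000000000000000000000000000000000000000000000000000000000000000000000000000000000001fdfbffc0000000000000000000000000000000000000000) (81 * z + w) = true →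
    (z = 2 ∧ absZ ((w : ℕ) - 2 : Z) ≠ 10) ∨ (z = 26 ∧ absZ ((w : ℕ) : Z) < 10) := by decide +kernel

theorem x_bit11 : ∀ z < 27, ∀ w < 27, Nat.testBit (nat_lit 0x1ff81ffc00000000000000000000000000000000000000000000000000000000000000000000000000000000000000000000000000000000000000000000000000000000000000000000000000000000000000000000000000000000000000000000000000000000000000000000000000000000000000000000000000000000000000000000000000000000000000000000000000000000000000000000000000000000000000000000000000000000000000000000000000000000000000000000000000000000000000000000000000000000000000000000000000000000000000000000000000000000000000000000001fef7ffc0000000000000000000000000000000000000000) (81 * z + w) = true →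
    (z = 2 ∧ absZ ((w : ℕ) - 2 : Z) ≠ 11) ∨ (z = 26 ∧ absZ ((w : ℕ) : Z) < 11) := by decide +kernel

theorem x_bit12 : ∀ z < 27, ∀ w < 27, Nat.testBit (nat_lit 0x1ffc3ffc00000000000000000000000000000000000000000000000000000000000000000000000000000000000000000000000000000000000000000000000000000000000000000000000000000000000000000000000000000000000000000000000000000000000000000000000000000000000000000000000000000000000000000000000000000000000000000000000000000000000000000000000000000000000000000000000000000000000000000000000000000000000000000000000000000000000000000000000000000000000000000000000000000000000000000000000000000000000000000000001ff6fffc0000000000000000000000000000000000000000) (81 * z + w) = true →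
    (z = 2 ∧ absZ ((w : ℕ) - 2 : Z) ≠ 12) ∨ (z = 26 ∧ absZ ((w : ℕ) : Z) < 12) := by decide +kernel

theorem x_bit13 : ∀ z < 27, ∀ w < 27, Nat.testBit (nat_lit 0x1ffe7ffc00000000000000000000000000000000000000000000000000000000000000000000000000000000000000000000000000000000000000000000000000000000000000000000000000000000000000000000000000000000000000000000000000000000000000000000000000000000000000000000000000000000000000000000000000000000000000000000000000000000000000000000000000000000000000000000000000000000000000000000000000000000000000000000000000000000000000000000000000000000000000000000000000000000000000000000000000000000000000000000001ff9fffc0000000000000000000000000000000000000000) (81 * z + w) = true →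
    (z = 2 ∧ absZ ((w : ℕ) - 2 : Z) ≠ 13) ∨ (z = 26 ∧ absZ ((w : ℕ) : Z) < 13) := by decide +kernel

end Pool.Agent.Q50.Z27
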